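import Pool.Agent.Helper94.HB.FreeAlg

/-!
Comparison: two elements of the free algebra are comparable or diverge.
-/

namespace HB

open PE

instance instPEUnit : PE PUnit.{1} where
  t := fun _ _ _ => PUnit.unit
  pt := PUnit.unit
  ld := fun _ _ _ _ _ => rfl

/-- skeleton -/
def sk : Tm F → Tm PUnit.{1}
  | .leaf => .leaf
  | .node a _ c => .node (sk a) PUnit.unit (sk c)

theorem sk_lift_step {s : Tm F} {u : Tm PUnit.{1}} (h : Tm.Step (sk s) u) :
    ∃ s', Tm.Step s s' ∧ sk s' = u := by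
  induction s generalizing u with
  | leaf => cases h
  | node a b c iha ihc =>
    cases c with
    | leaf =>
      cases h with
      | left _ _ h' =>
        obtain ⟨a', h1, h2⟩ := iha h'
        exact ⟨_, Tm.Step.left b _ h1, by simp [sk, h2]⟩
      | right _ _ h' => cases h'
    | node x y z =>
      cases h with
      | root _ _ _ _ _ => exact ⟨_, Tm.Step.root a b x y z, rfl⟩
      | left _ _ h' =>
        obtain ⟨a', h1, h2⟩ := iha h'
        exact ⟨_, Tm.Step.left b _ h1, by simp [sk, h2]⟩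
      | right _ _ h' =>
        obtain ⟨c', h1, h2⟩ := ihc h'
        exact ⟨_, Tm.Step.right a b h1, by simp [sk, h2]⟩

theorem sk_lift_steps {s : Tm F} {u : Tm PUnit.{1}} (h : Tm.Steps (sk s) u) :
    ∃ s', Tm.Steps s s' ∧ sk s' = u := by
  induction h with
  | refl => exact ⟨s, .refl, rfl⟩
  | tail _ h ih =>
    obtain ⟨s', h1, rfl⟩ := ih
    obtain ⟨s'', h2, h3⟩ := sk_lift_step h
    exact ⟨s'', h1.tail h2, h3⟩

theorem sk_lift_LS {s : Tm F} {u : Tm PUnit.{1}} (h : Tm.LS u (sk s)) :
    ∃ s', Tm.LS s' s ∧ sk s' = u := by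
  induction s with
  | leaf =>
    cases h with
    | refl => exact ⟨_, Tm.LS.refl _, rfl⟩
  | node a b c iha ihc =>
    cases h with
    | refl => exact ⟨_, Tm.LS.refl _, rfl⟩
    | step _ _ h' =>
      obtain ⟨s', h1, h2⟩ := iha h'
      exact ⟨s', Tm.LS.step _ _ h1, h2⟩

/-- right powers -/
def pw : ℕ → Tm PUnit.{1}
  | 0 => .leaf
  | k + 1 => .node .leaf PUnit.unit (pw k)

theorem absorb (s : Tm PUnit.{1}) :
    ∃ N, ∀ k, N ≤ k → Tm.Joins (.node s PUnit.unit (pw k)) (pw (k + 1)) := by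
  induction s with
  | leaf => exact ⟨0, fun k _ => Tm.Joins.refl _⟩
  | node a b c iha ihc =>
    obtain ⟨Na, ha⟩ := iha
    obtain ⟨Nc, hc⟩ := ihc
    refine ⟨max Na Nc + 1, fun k hk => ?_⟩
    obtain ⟨j, rfl⟩ : ∃ j, k = j + 1 := ⟨k - 1, by omega⟩
    have h1 : Na ≤ j := by omega
    have h2 : Nc ≤ j := by omega
    have e1 : Tm.Joins (.node (.node a b c) PUnit.unit (pw (j + 1)))
        (.node (.node a b c) PUnit.unit (.node a PUnit.unit (pw j))) :=
      Tm.Joins.both _ (Tm.Joins.refl _) (ha j h1).symm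
    have e2 : Tm.Joins (.node a b (.node c PUnit.unit (pw j)))
        (.node (.node a b c) PUnit.unit (.node a PUnit.unit (pw j))) :=
      Tm.Joins.of_steps (Relation.ReflTransGen.single (Tm.Step.root a b c PUnit.unit (pw j)))
    have e3 : Tm.Joins (.node a b (.node c PUnit.unit (pw j))) (.node a b (pw (j + 1))) :=
      Tm.Joins.both _ (Tm.Joins.refl _) (hc j h2)
    have e4 : Tm.Joins (.node a b (pw (j + 1))) (pw (j + 1 + 1)) := ha (j + 1) (by omega)
    exact e1.trans (e2.symm.trans (e3.trans e4))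

/-- divergence -/
def Div (p q : F) : Prop := ∃ r b b', b ≠ b' ∧ Edge r b p ∧ Edge r b' q

theorem Div.mono {p q p' q' : F} (h : Div p q) (hp : Le p p') (hq : Le q q') : Div p' q' := by
  obtain ⟨r, b, b', h1, h2, h3⟩ := h
  exact ⟨r, b, b', h1, h2.mono hp, h3.mono hq⟩

theorem Div.symm {p q : F} (h : Div p q) : Div q p := by
  obtain ⟨r, b, b', h1, h2, h3⟩ := h
  exact ⟨r, b', b, h1.symm, h3, h2⟩

theorem same_sk (c : Tm F) : ∀ (c' : Tm F), sk c = sk c' → ∀ φ : F → F, Mul φ →
    φ c.ev = φ c'.ev ∨ Div (φ c.ev) (φ c'.ev) := by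
  induction c with
  | leaf =>
    intro c' h φ _
    cases c' with
    | leaf => exact Or.inl rfl
    | node a b c => simp [sk] at h
  | node x y z ihx ihz =>
    intro c' h φ hφ
    cases c' with
    | leaf => simp [sk] at h
    | node x' y' z' =>
      have h1 : sk x = sk x' := by
        have := h
        simp only [sk, Tm.node.injEq] at this
        exact this.1
      have h2 : sk z = sk z' := by
        have := h
        simp only [sk, Tm.node.injEq] at this
        exact this.2.2
      have E : φ (Tm.node x y z).ev = t (φ x.ev) (φ y) (φ z.ev) := hφ.hom _ _ _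
      have E' : φ (Tm.node x' y' z').ev = t (φ x'.ev) (φ y') (φ z'.ev) := hφ.hom _ _ _
      rw [E, E']
      rcases ihx x' h1 φ hφ with h3 | h3
      · by_cases h4 : φ y = φ y'
        · rw [← h3, ← h4]
          exact ihz z' h2 (fun w => t (φ x.ev) (φ y) (φ w)) (Mul.cons _ _ hφ)
        · right
          refine ⟨φ x.ev, φ y, φ y', h4, ⟨_, Le.refl _⟩, ?_⟩
          rw [h3]
          exact ⟨_, Le.refl _⟩
      · right
        exact h3.mono (Le.step _ _ (Le.refl _)) (Le.step _ _ (Le.refl _))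

theorem same_sk' {c c' : Tm F} (h : sk c = sk c') : c.ev = c'.ev ∨ Div c.ev c'.ev :=
  same_sk c c' h (fun z => z) Mul.id

theorem tri (p q : F) : Le p q ∨ Le q p ∨ Div p q := by
  obtain ⟨s, hs⟩ := exists_tm p
  obtain ⟨u, hu⟩ := exists_tm q
  obtain ⟨N, hN⟩ := absorb (sk s)
  obtain ⟨N', hN'⟩ := absorb (sk u)
  have h1 := hN (max N N') (le_max_left _ _)
  have h2 := hN' (max N N') (le_max_right _ _)
  obtain ⟨T, hT1, hT2⟩ := h1.trans h2.symm
  obtain ⟨v, hv1, hv2⟩ :=
    (Tm.LS.step PUnit.unit (pw (max N N')) (Tm.LS.refl (sk s))).persist hT1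
  obtain ⟨v', hv1', hv2'⟩ :=
    (Tm.LS.step PUnit.unit (pw (max N N')) (Tm.LS.refl (sk u))).persist hT2
  obtain ⟨s1, hs1, hs2⟩ := sk_lift_steps hv1
  obtain ⟨u1, hu1, hu2⟩ := sk_lift_steps hv1'
  have es : s1.ev = p := by rw [← hs1.ev_eq, hs]
  have eu : u1.ev = q := by rw [← hu1.ev_eq, hu]
  rcases hv2.total hv2' with h | h
  · rw [← hu2] at h
    obtain ⟨u2, hu3, hu4⟩ := sk_lift_LS h
    have hle : Le u2.ev q := by rw [← eu]; exact Le.of_LS hu3
    rcases same_sk' (hs2.trans hu4.symm) with h5 | h5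
    · left
      rw [← es, h5]; exact hle
    · right; right
      rw [es] at h5
      exact h5.mono (Le.refl _) hle
  · rw [← hs2] at h
    obtain ⟨s2, hs3, hs4⟩ := sk_lift_LS h
    have hle : Le s2.ev p := by rw [← es]; exact Le.of_LS hs3
    rcases same_sk' (hs4.trans hu2.symm) with h5 | h5
    · right; left
      rw [← eu, ← h5]; exact hle
    · right; right
      rw [eu] at h5
      exact h5.mono hle (Le.refl _)

/-- common lower bounds are below a divergence position -/
theorem le_of_div (hA : Acyclic) {p q r b b' v : F} (h1 : Edge r b p) (h2 : Edge r b' q)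
    (hb : b ≠ b') (hp : Le v p) (hq : Le v q) : Le v r := by
  rcases hp.total h1.le with h | h
  · exact h
  · rcases h.edge_or_eq with h | ⟨b'', h⟩
    · rw [h]; exact Le.refl _
    · exact absurd ((Edge.unique hA h1 (h.mono hp)).trans (Edge.unique hA (h.mono hq) h2)) hb

end HB
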