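import Pool.Agent.Helper94.HB.Levels

/-!
The main combinatorial theorem.
-/

namespace HB

open PE

/-- `u ≤ v` lie in one block of `m` (below `y`) or in one block of `m'` (below `y'`) -/
def Blk (m m' : F → F) (hm : Hom m) (hm' : Hom m') (y y' : F) (u v : F) : Prop :=
  Le u v ∧ ((∃ q, Le q y ∧ Le (dia m hm q) u ∧ Le v (m q)) ∨
    (∃ q, Le q y' ∧ Le (dia m' hm' q) u ∧ Le v (m' q)))

theorem Blk.mono {m m' : F → F} {hm : Hom m} {hm' : Hom m'} {y y' z z' : F} {u v : F}
    (h : Blk m m' hm hm' y y' u v) (h1 : Le y z) (h2 : Le y' z') :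
    Blk m m' hm hm' z z' u v := by
  obtain ⟨h3, ⟨q, h4, h5, h6⟩ | ⟨q, h4, h5, h6⟩⟩ := h
  · exact ⟨h3, Or.inl ⟨q, h4.trans h1, h5, h6⟩⟩
  · exact ⟨h3, Or.inr ⟨q, h4.trans h2, h5, h6⟩⟩

/-- limit decomposition -/
theorem decomp {m m' : F → F} (hm : Mul m) (hm' : Mul m') {O : F → F → Prop} (s : Tm F) :
    ∀ {r r' : F}, SS m O s r → SS m' O s r' →
    ∃ N N' B : F → F, Mul B ∧ (∀ z, m (N z) = B (m z)) ∧ (∀ z, m' (N' z) = B (m' z)) ∧
      (∀ x ∈ VV O, N x ∈ VV O) ∧ (∀ x ∈ VV O, N' x ∈ VV O) ∧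
      Relation.ReflTransGen (Blk m m' hm.hom hm'.hom r r') (B pt) s.ev := by
  induction s with
  | leaf =>
    intro r r' _ _
    exact ⟨fun z => z, fun z => z, fun z => z, Mul.id, fun _ => rfl, fun _ => rfl,
      fun _ h => h, fun _ h => h, .refl⟩
  | node a b c iha ihc =>
    intro r r' hr hr'
    -- the case where one of the two is `inner`
    have inner1 : ∀ {ra ra' : F}, SS m O a ra → SS m' O a ra' → Le ra r → Le ra' r' →
        Blk m m' hm.hom hm'.hom r r' a.ev (Tm.node a b c).ev →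
        ∃ N N' B : F → F, Mul B ∧ (∀ z, m (N z) = B (m z)) ∧ (∀ z, m' (N' z) = B (m' z)) ∧
          (∀ x ∈ VV O, N x ∈ VV O) ∧ (∀ x ∈ VV O, N' x ∈ VV O) ∧
          Relation.ReflTransGen (Blk m m' hm.hom hm'.hom r r') (B pt) (Tm.node a b c).ev := by
      intro ra ra' h1 h1' h2 h2' h3
      obtain ⟨N, N', B, k1, k2, k3, k4, k5, k6⟩ := iha h1 h1'
      exact ⟨N, N', B, k1, k2, k3, k4, k5,
        (Relation.ReflTransGen.mono (fun _ _ h => h.mono h2 h2') _ _ k6).tail h3⟩
    have hle : Le a.ev (Tm.node a b c).ev := Le.step _ _ (Le.refl _)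
    cases hr with
    | inner _ _ h1 h2 =>
      have hb : Blk m m' hm.hom hm'.hom r r' a.ev (Tm.node a b c).ev :=
        ⟨hle, Or.inl ⟨r, Le.refl _, (SS_bounds hm h1).1, h2⟩⟩
      cases hr' with
      | inner _ _ h1' h2' => exact inner1 h1 h1' (Le.refl _) (Le.refl _) hb
      | trans h1' h2' h3' h4' h5' h6' =>
        refine inner1 h1 h1' (Le.refl _) ?_ hb
        rw [h6']
        exact Le.step _ _ (Le.refl _)
    | @trans _ _ _ r1 r2 d _ h1 h2 h3 h4 h5 h6 =>
      cases hr' with
      | inner _ _ h1' h2' =>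
        have hb : Blk m m' hm.hom hm'.hom r r' a.ev (Tm.node a b c).ev :=
          ⟨hle, Or.inr ⟨r', Le.refl _, (SS_bounds hm' h1').1, h2'⟩⟩
        refine inner1 h1 h1' ?_ (Le.refl _) hb
        rw [h6]
        exact Le.step _ _ (Le.refl _)
      | @trans _ _ _ r1' r2' d' _ h1' h2' h3' h4' h5' h6' =>
        obtain ⟨N, N', B, k1, k2, k3, k4, k5, k6⟩ := ihc h3 h3'
        refine ⟨fun z => t r1 d (N z), fun z => t r1' d' (N' z), fun z => t a.ev b (B z),
          Mul.cons _ _ k1, ?_, ?_, ?_, ?_, ?_⟩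
        · intro z
          show m (t r1 d (N z)) = t a.ev b (B (m z))
          rw [hm.hom, ← h2, ← h5, k2]
        · intro z
          show m' (t r1' d' (N' z)) = t a.ev b (B (m' z))
          rw [hm'.hom, ← h2', ← h5', k3]
        · intro x hx
          exact VV_t (SS_mem h1) h4 (k4 x hx)
        · intro x hx
          exact VV_t (SS_mem h1') h4' (k5 x hx)
        · show Relation.ReflTransGen _ (t a.ev b (B pt)) (t a.ev b c.ev)
          refine Relation.ReflTransGen.lift (fun z => t a.ev b z) ?_ _ _ k6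
          rintro u v ⟨e1, ⟨q, e2, e3, e4⟩ | ⟨q, e2, e3, e4⟩⟩
          · refine ⟨(Hom.left _ _).le e1, Or.inl ⟨t r1 d q, ?_, ?_, ?_⟩⟩
            · rw [h6]; exact (Hom.left _ _).le e2
            · rw [dia_t, ← h2, ← h5]; exact (Hom.left _ _).le e3
            · rw [hm.hom, ← h2, ← h5]; exact (Hom.left _ _).le e4
          · refine ⟨(Hom.left _ _).le e1, Or.inr ⟨t r1' d' q, ?_, ?_, ?_⟩⟩
            · rw [h6']; exact (Hom.left _ _).le e2
            · rw [dia_t, ← h2', ← h5']; exact (Hom.left _ _).le e3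
            · rw [hm'.hom, ← h2', ← h5']; exact (Hom.left _ _).le e4

theorem chain_le {m m' : F → F} {hm : Hom m} {hm' : Hom m'} {y y' u v : F}
    (h : Relation.ReflTransGen (Blk m m' hm hm' y y') u v) : Le u v := by
  induction h with
  | refl => exact Le.refl _
  | tail _ h ih => exact ih.trans h.1

/-- a block end in a half open block -/
theorem block_end (hA : Acyclic) {m : F → F} (hm : Hom m) {y q a u w : F} (hq : Le q y)
    (ha : Le a y) (h1 : Le (dia m hm q) u) (h2 : Le w (m q)) (h3 : Le u (m a))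
    (h4 : Le (m a) w) : m a = w := by
  rcases ha.total hq with h | h
  · rcases h.edge_or_eq with rfl | ⟨b, hb⟩
    · exact Le.antisymm' hA h4 h2
    · exfalso
      obtain ⟨b', hb'⟩ := lt_dia m hm hb
      have h5 := hb'.mono (h1.trans h3)
      exact h5.ne hA rfl
  · exact Le.antisymm' hA h4 (h2.trans (hm.le h))

/-- no common positions inside the chain -/
theorem no_common (hA : Acyclic) {m m' : F → F} {hm : Hom m} {hm' : Hom m'} {y y' v0 w : F}
    (h : Relation.ReflTransGen (Blk m m' hm hm' y y') v0 w) {a a' : F} (ha : Le a y)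
    (ha' : Le a' y') (hv : m a = m' a') (h0 : Le v0 (m a)) (h1 : Le (m a) w) : m a = w := by
  induction h with
  | refl => exact Le.antisymm' hA h1 h0
  | @tail u w _ h ih =>
    have h2 : Le u (m a) := by
      rcases h1.total h.1 with h3 | h3
      · rw [ih h3]; exact Le.refl _
      · exact h3
    obtain ⟨_, ⟨q, e2, e3, e4⟩ | ⟨q, e2, e3, e4⟩⟩ := h
    · exact block_end hA hm e2 ha e3 e4 h2 h1
    · rw [hv] at h1 h2 ⊢
      exact block_end hA hm' e2 ha' e3 e4 h2 h1

/-- cancellation for edges in `O` -/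
def Canc (O : F → F → Prop) : Prop :=
  ∀ m, Mul m → ∀ a d d', O a d → O a d' → m d = m d' → d = d'

theorem claim (hA : Acyclic) {O : F → F → Prop} (hO : Inv O) (hC : Canc O) {m m' : F → F}
    (hm : Mul m) (hm' : Mul m') {x y x' y' : F} (hx : x ∈ VV O) (hy : y ∈ VV O)
    (hx' : x' ∈ VV O) (hy' : y' ∈ VV O) (hxx : m x = m' x') {w b b' : F}
    (hb : Edge w b (m y)) (hb' : Edge w b' (m' y')) (hne : b ≠ b') : O w b ∧ O w b' := by
  obtain ⟨s, r, r', hs, hs', hw, hr, hr'⟩ := SS_common hm hm' hO hy hy' hb.le hb'.le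
  obtain ⟨N, N', B, k1, k2, k3, k4, k5, k6⟩ := decomp hm hm' s hs hs'
  rw [hw] at k6
  have k6' : Relation.ReflTransGen (Blk m m' hm.hom hm'.hom y y') (B pt) w :=
    Relation.ReflTransGen.mono (fun _ _ h => h.mono hr hr') _ _ k6
  have hv0 : Le (B pt) w := chain_le k6
  -- the third element
  have hzeta : m (N x) = m' (N' x') := by rw [k2, k3, hxx]
  have hx1 : N x ∈ VV O := k4 x hx
  have hx1' : N' x' ∈ VV O := k5 x' hx'
  have hvz : Le (B pt) (m (N x)) := by rw [k2]; exact k1.hom.le (pt_le _)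
  -- edges of elements of `VV O`
  have hE : ∀ {a d z : F}, Edge a d z → z ∈ VV O → O a d := fun h hz => VV_edge hO h hz
  -- image of an edge
  have hI : ∀ {φ : F → F}, Mul φ → ∀ {a d}, O a d → O (φ a) (φ d) := fun hφ _ _ h => hO _ hφ _ _ h
  -- finishing lemma 1
  have fin1 : ∀ {v c c' : F}, Edge v c (m y) → Edge v c' (m' y') → c ≠ c' → O v c → O v c' →
      O w b ∧ O w b' := by
    intro v c c' h1 h2 h3 h4 h5
    have e1 : Le v w := le_of_div hA hb hb' hne h1.le h2.le
    have e2 : Le w v := le_of_div hA h1 h2 h3 hb.le hb'.le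
    have e3 : v = w := Le.antisymm' hA e1 e2
    subst e3
    rw [Edge.unique hA hb h1, Edge.unique hA hb' h2]
    exact ⟨h4, h5⟩
  -- finishing lemma 2: a common position above the start of the chain
  have fin2 : ∀ {a a' : F}, Le a y → Le a' y' → m a = m' a' → Le (B pt) (m a) →
      O w b ∧ O w b' := by
    intro a a' h1 h2 h3 h4
    have h5 : Le (m a) w := le_of_div hA hb hb' hne (hm.hom.le h1) (by rw [h3]; exact hm'.hom.le h2)
    have h6 : m a = w := no_common hA k6' h1 h2 h3 h4 h5
    rcases h1.edge_or_eq with rfl | ⟨d, hd⟩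
    · exact absurd h6.symm (hb.ne hA)
    rcases h2.edge_or_eq with rfl | ⟨d', hd'⟩
    · exact absurd (h6.symm.trans h3) (hb'.ne hA)
    have h7 := hm.hom.edge hd
    have h8 := hm'.hom.edge hd'
    rw [h6] at h7
    rw [← h3, h6] at h8
    rw [Edge.unique hA hb h7, Edge.unique hA hb' h8]
    have h9 := hI hm (hE hd hy)
    have h10 := hI hm' (hE hd' hy')
    rw [h6] at h9
    rw [← h3, h6] at h10
    exact ⟨h9, h10⟩
  -- images of divergences
  have hD : ∀ {φ : F → F}, Mul φ → ∀ {p q : F}, p ∈ VV O → q ∈ VV O → Div p q →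
      ∃ a d d', Edge a d p ∧ Edge (φ a) (φ d) (φ p) ∧ Edge (φ a) (φ d') (φ q) ∧ φ d ≠ φ d' ∧
        O (φ a) (φ d) ∧ O (φ a) (φ d') := by
    rintro φ hφ p q hp hq ⟨a, d, d', h1, h2, h3⟩
    exact ⟨a, d, d', h2, hφ.hom.edge h2, hφ.hom.edge h3,
      fun h => h1 (hC φ hφ a d d' (hE h2 hp) (hE h3 hq) h), hI hφ (hE h2 hp), hI hφ (hE h3 hq)⟩
  have hincomp1 : ¬ Le (m y) (m' y') := fun h =>
    hne (Edge.unique hA (hb.mono h) hb')
  have hincomp2 : ¬ Le (m' y') (m y) := fun h =>
    hne (Edge.unique hA hb (hb'.mono h))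
  -- comparison of `y` and `N x`
  by_cases hd : Div y (N x)
  · obtain ⟨a, d, d', g1, g2, g3, g4, g5, g6⟩ := hD hm hy hx1 hd
    by_cases hd' : Div y' (N' x')
    · obtain ⟨a2, d2, d2', g1', g2', g3', g4', g5', g6'⟩ := hD hm' hy' hx1' hd'
      rw [← hzeta] at g3'
      -- positions `m a`, `m' a2` both below `m (N x)`
      rcases g3.le.total g3'.le with h | h
      · rcases h.edge_or_eq with h | ⟨e, he⟩
        · -- common position
          refine fin2 g1.le g1'.le h ?_
          exact le_of_div hA g2 g3 g4 (hv0.trans hb.le) hvz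
        · -- `m a < m' a2`
          have h1 : Edge (m a) e (m' y') := he.mono g2'.le
          have h2 : Edge (m a) e (m (N x)) := he.mono g3'.le
          have h3 : e = m d' := Edge.unique hA h2 g3
          subst h3
          exact fin1 g2 h1 g4 g5 g6
      · rcases h.edge_or_eq with h | ⟨e, he⟩
        · refine fin2 g1.le g1'.le h.symm ?_
          exact le_of_div hA g2 g3 g4 (hv0.trans hb.le) hvz
        · -- `m' a2 < m a`
          have h1 : Edge (m' a2) e (m y) := he.mono g2.le
          have h2 : Edge (m' a2) e (m (N x)) := he.mono g3.le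
          have h3 : e = m' d2' := Edge.unique hA h2 g3'
          subst h3
          exact fin1 h1 g2' g4'.symm g6' g5'
    · -- `q` comparable with `ζ`
      have hcmp : Le y' (N' x') ∨ Le (N' x') y' := by
        rcases tri y' (N' x') with h | h | h
        · exact Or.inl h
        · exact Or.inr h
        · exact absurd h hd'
      rcases hcmp with h | h
      · -- `q ≤ ζ`
        have h1 : Le (m' y') (m (N x)) := by rw [hzeta]; exact hm'.hom.le h
        rcases h1.total g3.le with h2 | h2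
        · exact absurd (h2.trans g2.le) hincomp2
        · rcases h2.edge_or_eq with h3 | ⟨e, he⟩
          · exact absurd (h3 ▸ g2.le) hincomp2
          · have h3 : e = m d' := Edge.unique hA (he.mono h1) g3
            subst h3
            exact fin1 g2 he g4 g5 g6
      · -- `ζ ≤ q`
        have h1 : Le (m (N x)) (m' y') := by rw [hzeta]; exact hm'.hom.le h
        exact fin1 g2 (g3.mono h1) g4 g5 g6
  · have hcmp : Le y (N x) ∨ Le (N x) y := by
      rcases tri y (N x) with h | h | h
      · exact Or.inl h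
      · exact Or.inr h
      · exact absurd h hd
    by_cases hd' : Div y' (N' x')
    · obtain ⟨a2, d2, d2', g1', g2', g3', g4', g5', g6'⟩ := hD hm' hy' hx1' hd'
      rw [← hzeta] at g3'
      rcases hcmp with h | h
      · -- `p ≤ ζ`
        have h1 : Le (m y) (m (N x)) := hm.hom.le h
        rcases h1.total g3'.le with h2 | h2
        · exact absurd (h2.trans g2'.le) hincomp1
        · rcases h2.edge_or_eq with h3 | ⟨e, he⟩
          · exact absurd (h3 ▸ g2'.le) hincomp1
          · have h3 : e = m' d2' := Edge.unique hA (he.mono h1) g3'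
            subst h3
            exact fin1 he g2' g4'.symm g6' g5'
      · -- `ζ ≤ p`
        have h1 : Le (m (N x)) (m y) := hm.hom.le h
        exact fin1 (g3'.mono h1) g2' g4'.symm g6' g5'
    · have hcmp' : Le y' (N' x') ∨ Le (N' x') y' := by
        rcases tri y' (N' x') with h | h | h
        · exact Or.inl h
        · exact Or.inr h
        · exact absurd h hd'
      have hz : Le (m' (N' x')) (m (N x)) := by rw [hzeta]; exact Le.refl _
      have hz' : Le (m (N x)) (m' (N' x')) := by rw [hzeta]; exact Le.refl _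
      rcases hcmp with h | h
      · rcases hcmp' with h' | h'
        · -- both `≤ ζ`
          rcases (hm.hom.le h).total ((hm'.hom.le h').trans hz) with h2 | h2
          · exact absurd h2 hincomp1
          · exact absurd h2 hincomp2
        · exact absurd ((hm.hom.le h).trans (hz'.trans (hm'.hom.le h'))) hincomp1
      · rcases hcmp' with h' | h'
        · exact absurd ((hm'.hom.le h').trans (hz.trans (hm.hom.le h))) hincomp2
        · exact fin2 h h' hzeta hvz

/-- relations used in the descent -/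
structure Good (R : F → F → Prop) : Prop where
  lar : ∀ p q r b b', R p q → Edge r b p → Edge r b' q → R b b'
  acy : ∀ p q, R p q → Le p q → p = q
  acy' : ∀ p q, R p q → Le q p → p = q

theorem good_mul (hA : Acyclic) {m : F → F} (hm : Mul m) : Good (fun p q => m p = m q) := by
  refine ⟨?_, ?_, ?_⟩
  · intro p q r b b' h h1 h2
    have h3 := hm.hom.edge h1
    have h4 := hm.hom.edge h2
    rw [← h] at h4
    exact Edge.unique hA h3 h4
  · intro p q h h1
    rcases h1.edge_or_eq with h2 | ⟨b, hb⟩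
    · exact h2
    · exact absurd h ((hm.hom.edge hb).ne hA)
  · intro p q h h1
    rcases h1.edge_or_eq with h2 | ⟨b, hb⟩
    · exact h2.symm
    · exact absurd h.symm ((hm.hom.edge hb).ne hA)

theorem descent (hA : Acyclic) (n : ℕ) : ∀ R : F → F → Prop, Good R → ∀ L L' : F → F,
    Mul L → Mul L' → ∀ x ∈ MM n, ∀ y ∈ MM n, ∀ x' ∈ MM n, ∀ y' ∈ MM n, L x = L' x' →
    R (L y) (L' y') → L y = L' y' := by
  induction n with
  | zero =>
    intro R _ L L' _ _ x hx y hy x' hx' y' hy' h _
    have h1 : x = pt := hx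
    have h2 : y = pt := hy
    have h3 : x' = pt := hx'
    have h4 : y' = pt := hy'
    subst h1 h2 h3 h4
    exact h
  | succ n ih =>
    intro R hR L L' hL hL' x hx y hy x' hx' y' hy' h h'
    have hC : Canc (OO (MM n)) := by
      rintro m hm a d d' ⟨φ, hφ, e1, he1, e2, he2, rfl, rfl⟩ ⟨ψ, hψ, f1, hf1, f2, hf2, h5, rfl⟩ h6
      exact ih _ (good_mul hA hm) φ ψ hφ hψ e1 he1 e2 he2 f1 hf1 f2 hf2 h5.symm h6
    rcases tri (L y) (L' y') with h1 | h1 | ⟨w, b, b', hne, hb, hb'⟩
    · exact hR.acy _ _ h' h1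
    · exact hR.acy' _ _ h' h1
    · exfalso
      obtain ⟨⟨φ, hφ, e1, he1, e2, he2, h7, h8⟩, ⟨ψ, hψ, f1, hf1, f2, hf2, h9, h10⟩⟩ :=
        claim hA (OO_inv (MM n)) hC hL hL' hx hy hx' hy' h hb hb' hne
      apply hne
      have h11 := hR.lar _ _ _ _ _ h' hb hb'
      rw [← h8, ← h10]
      rw [← h8, ← h10] at h11
      exact ih R hR φ ψ hφ hψ e1 he1 e2 he2 f1 hf1 f2 hf2 (h7.trans h9.symm) h11

theorem main (hA : Acyclic) {R : F → F → Prop} (hR : Good R) {p q : F} (h : R p q) : p = q := by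
  obtain ⟨i, hi⟩ := exists_level p
  obtain ⟨j, hj⟩ := exists_level q
  have hp : p ∈ MM (max i j) := MM_mono (by omega) hi
  have hq : q ∈ MM (max i j) := MM_mono (by omega) hj
  have h0 : (pt : F) ∈ MM (max i j) := MM_mono (Nat.zero_le _) (show (pt : F) ∈ MM 0 from rfl)
  exact descent hA (max i j) R hR (fun z => z) (fun z => z) Mul.id Mul.id pt h0 p hp pt h0 q hq
    rfl h

end HB
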