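import Mathlib

/-!
Definitions for MP_18a08038_al (ternary hyperbraid algebra).
Generators are indexed by `ℕ` starting at `0`: `tau n` is the generator `τ_{n+1}` of the problem.
-/

namespace HB

/-- The defining relators of `G`. -/
def rels : Set (FreeGroup ℕ) :=
  {r | ∃ n : ℕ, r = FreeGroup.of n * FreeGroup.of (n + 1) * FreeGroup.of (n + 2) * FreeGroup.of n *
      (FreeGroup.of (n + 2) * FreeGroup.of n * FreeGroup.of (n + 1) * FreeGroup.of (n + 2))⁻¹} ∪
  {r | ∃ i j : ℕ, i + 2 < j ∧
    r = FreeGroup.of i * FreeGroup.of j * (FreeGroup.of j * FreeGroup.of i)⁻¹}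

/-- The group `G`. -/
abbrev G : Type := PresentedGroup rels

/-- The generators. -/
def tau (n : ℕ) : G := PresentedGroup.of n

theorem tau_rel (n : ℕ) :
    tau n * tau (n + 1) * tau (n + 2) * tau n =
      tau (n + 2) * tau n * tau (n + 1) * tau (n + 2) := by
  have h : (PresentedGroup.mk rels) (FreeGroup.of n * FreeGroup.of (n + 1) *
      FreeGroup.of (n + 2) * FreeGroup.of n *
      (FreeGroup.of (n + 2) * FreeGroup.of n * FreeGroup.of (n + 1) *
        FreeGroup.of (n + 2))⁻¹) = 1 :=
    PresentedGroup.one_of_mem (Or.inl ⟨n, rfl⟩)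
  rw [map_mul, map_inv, mul_inv_eq_one] at h
  simpa [tau, PresentedGroup.of, map_mul] using h

theorem tau_comm (i j : ℕ) (h : i + 2 < j) : tau i * tau j = tau j * tau i := by
  have h : (PresentedGroup.mk rels) (FreeGroup.of i * FreeGroup.of j *
      (FreeGroup.of j * FreeGroup.of i)⁻¹) = 1 :=
    PresentedGroup.one_of_mem (Or.inr ⟨i, j, h, rfl⟩)
  rw [map_mul, map_inv, mul_inv_eq_one] at h
  simpa [tau, PresentedGroup.of, map_mul] using h

theorem sh_rels : ∀ r ∈ rels, FreeGroup.lift (fun n => tau (n + 1)) r = 1 := by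
  rintro r (⟨n, rfl⟩ | ⟨i, j, hij, rfl⟩)
  · rw [map_mul, map_inv, mul_inv_eq_one]
    simp only [map_mul, FreeGroup.lift_apply_of]
    exact tau_rel (n + 1)
  · rw [map_mul, map_inv, mul_inv_eq_one]
    simp only [map_mul, FreeGroup.lift_apply_of]
    exact tau_comm (i + 1) (j + 1) (by omega)

/-- The shift endomorphism `τ_i ↦ τ_{i+1}`. -/
def sh : G →* G := PresentedGroup.toGroup sh_rels

@[simp] theorem sh_tau (n : ℕ) : sh (tau n) = tau (n + 1) := by
  simp [sh, tau]

/-- The ternary operation on `G`. -/
def tG (x y z : G) : G := x * sh y * sh (sh z) * tau 0 * (sh (x * sh y))⁻¹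

/-- Ternary terms in one variable. -/
inductive Term : Type
  | var : Term
  | op (a b c : Term) : Term

/-- Value of a term in `(G, t)` when the variable is `g`. -/
def Term.eval (g : G) : Term → G
  | .var => g
  | .op a b c => tG (a.eval g) (b.eval g) (c.eval g)

/-- The congruence on terms generated by left self-distributivity. -/
inductive LD : Term → Term → Prop
  | refl (p : Term) : LD p p
  | symm {p q : Term} : LD p q → LD q p
  | trans {p q r : Term} : LD p q → LD q r → LD p r
  | congr {a a' b b' c c' : Term} : LD a a' → LD b b' → LD c c' →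
      LD (.op a b c) (.op a' b' c')
  | ld (a b x y z : Term) :
      LD (.op a b (.op x y z)) (.op (.op a b x) (.op a b y) (.op a b z))

end HB
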