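import Pool.Agent.Helper94.HB.Group
import Pool.Agent.Helper28.HB.Larue

/-!
Every element of `G` generates a free endomorphic algebra.
-/

namespace HB

theorem larueStmt : LarueStmt := fun _ _ h => larue h

theorem evalF_injective (g : G) : Function.Injective (evalF g) :=
  evalF_injective_of larueStmt g

theorem free_generation (g : G) :
    ∃ φ : F → G, (∀ a b c : F, φ (F.op a b c) = tG (φ a) (φ b) (φ c)) ∧
      φ (F.mk Term.var) = g ∧ Function.Injective φ ∧
      (∀ ψ : F → G, (∀ a b c : F, ψ (F.op a b c) = tG (ψ a) (ψ b) (ψ c)) →
        ψ (F.mk Term.var) = g → ψ = φ) ∧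
      (∀ p q : Term, p.eval g = q.eval g ↔ LD p q) := by
  refine ⟨evalF g, fun a b c => evalF_t g a b c, rfl, evalF_injective g, ?_, ?_⟩
  · intro ψ h1 h2
    funext z
    induction z using F.ind with
    | h1 => exact h2
    | h2 a b c iha ihb ihc =>
      have e1 := h1 a b c
      have e2 := evalF_t g a b c
      rw [iha, ihb, ihc] at e1
      exact e1.trans e2.symm
  · intro p q
    rw [← evalF_mk, ← evalF_mk]
    constructor
    · intro h
      exact Quotient.exact (evalF_injective g h)
    · intro h
      rw [show F.mk p = F.mk q from Quotient.sound h]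

end HB
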