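import Pool.Agent.Helper94.HB.Defs

/-!
The free endomorphic algebra on one generator: terms modulo the self-distributive law.
-/

namespace HB

/-- LD-equivalence as a setoid -/
instance ldSetoid : Setoid Term := ⟨LD, ⟨LD.refl, LD.symm, LD.trans⟩⟩

/-- The free endomorphic algebra on one generator. -/
def F : Type := Quotient ldSetoid

/-- class of a term -/
def F.mk (p : Term) : F := Quotient.mk ldSetoid p

/-- the operation of the free algebra -/
def F.op (a b c : F) : F :=
  Quotient.liftOn a
    (fun a => Quotient.liftOn₂ b c (fun b c => F.mk (Term.op a b c))
      (fun _ _ _ _ h1 h2 => Quotient.sound (LD.congr (LD.refl _) h1 h2)))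
    (by
      intro a a' h
      induction b using Quotient.inductionOn
      induction c using Quotient.inductionOn
      exact Quotient.sound (LD.congr h (LD.refl _) (LD.refl _)))

theorem F.op_mk (a b c : Term) : F.op (F.mk a) (F.mk b) (F.mk c) = F.mk (Term.op a b c) := rfl

theorem F.op_ld (a b x y z : F) :
    F.op a b (F.op x y z) = F.op (F.op a b x) (F.op a b y) (F.op a b z) := by
  induction a using Quotient.inductionOn
  induction b using Quotient.inductionOn
  induction x using Quotient.inductionOn
  induction y using Quotient.inductionOn
  induction z using Quotient.inductionOn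
  exact Quotient.sound (LD.ld _ _ _ _ _)

end HB
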