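import Pool.Agent.Helper94.HB.Terms
import Pool.Agent.Helper94.HB.Free

/-!
The free endomorphic algebra on one generator, universal property, joinability of labelled terms
with the same value, the left subterm order.
-/

namespace HB

open PE

instance instPEF : PE F where
  t := F.op
  pt := F.mk Term.var
  ld := F.op_ld

/-- induction principle for the free algebra -/
theorem F.ind {P : F → Prop} (h1 : P pt) (h2 : ∀ a b c, P a → P b → P c → P (t a b c)) :
    ∀ z, P z := by
  intro z
  induction z using Quotient.inductionOn with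
  | h p =>
    induction p with
    | var => exact h1
    | op a b c iha ihb ihc => exact h2 _ _ _ iha ihb ihc

/-- value of a term in a pointed algebra -/
def Term.val (A : Type*) [PE A] : Term → A
  | .var => pt
  | .op a b c => t (a.val A) (b.val A) (c.val A)

theorem LD.val_eq (A : Type*) [PE A] {p q : Term} (h : LD p q) : p.val A = q.val A := by
  induction h with
  | refl => rfl
  | symm _ ih => exact ih.symm
  | trans _ _ ih1 ih2 => exact ih1.trans ih2
  | congr _ _ _ ih1 ih2 ih3 => simp only [Term.val, ih1, ih2, ih3]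
  | ld a b x y z => exact PE.ld _ _ _ _ _

/-- the homomorphism from the free algebra -/
def F.lift (A : Type*) [PE A] : F → A :=
  Quotient.lift (fun p => p.val A) (fun _ _ h => LD.val_eq A h)

theorem F.lift_pt (A : Type*) [PE A] : F.lift A pt = pt := rfl

theorem F.lift_t (A : Type*) [PE A] (a b c : F) :
    F.lift A (t a b c) = t (F.lift A a) (F.lift A b) (F.lift A c) := by
  induction a using Quotient.inductionOn
  induction b using Quotient.inductionOn
  induction c using Quotient.inductionOn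
  rfl

/-! ### joinability -/

/-- joinability as a setoid -/
def joinSetoid : Setoid (Tm F) := ⟨Tm.Joins, ⟨Tm.Joins.refl, Tm.Joins.symm, Tm.Joins.trans⟩⟩

/-- labelled terms modulo joinability -/
def Q : Type := Quotient joinSetoid

/-- value -/
def Q.ev : Q → F := Quotient.lift (fun s => s.ev) (fun _ _ h => Tm.Joins.ev_eq h)

/-- class -/
def Q.mk (s : Tm F) : Q := Quotient.mk joinSetoid s

/-- operation -/
def Q.op (a b c : Q) : Q :=
  Quotient.liftOn₂ a c (fun a c => Q.mk (Tm.node a b.ev c))
    (fun _ _ _ _ h1 h2 => Quotient.sound (Tm.Joins.both _ h1 h2))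

theorem Q.op_mk (a : Tm F) (b : Q) (c : Tm F) :
    Q.op (Q.mk a) b (Q.mk c) = Q.mk (Tm.node a b.ev c) := rfl

theorem Q.ev_op (a b c : Q) : (Q.op a b c).ev = t a.ev b.ev c.ev := by
  induction a using Quotient.inductionOn
  induction c using Quotient.inductionOn
  rfl

instance instPEQ : PE Q where
  t := Q.op
  pt := Q.mk Tm.leaf
  ld := by
    intro a b x y z
    have h1 := Q.ev_op a b y
    generalize hy : Q.op a b y = y' at h1
    induction a using Quotient.inductionOn with
    | h a =>
      induction x using Quotient.inductionOn with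
      | h x =>
        induction z using Quotient.inductionOn with
        | h z =>
          apply Quotient.sound
          show Tm.Joins (Tm.node a b.ev (Tm.node x y.ev z))
            (Tm.node (Tm.node a b.ev x) y'.ev (Tm.node a b.ev z))
          rw [h1]
          exact Tm.Joins.of_steps (Relation.ReflTransGen.single (Tm.Step.root a b.ev x y.ev z))

theorem Q.ev_lift (z : F) : (F.lift Q z).ev = z := by
  induction z using F.ind with
  | h1 => rfl
  | h2 a b c iha ihb ihc =>
    rw [F.lift_t]
    show (Q.op _ _ _).ev = _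
    rw [Q.ev_op, iha, ihb, ihc]

theorem Q.lift_ev (s : Tm F) : F.lift Q s.ev = Q.mk s := by
  induction s with
  | leaf => rfl
  | node a b c iha ihc =>
    rw [Tm.ev_node, F.lift_t, iha, ihc]
    show Q.op (Q.mk a) (F.lift Q b) (Q.mk c) = _
    rw [Q.op_mk, Q.ev_lift]

theorem join_of_ev_eq {s u : Tm F} (h : s.ev = u.ev) : Tm.Joins s u := by
  have h1 : Q.mk s = Q.mk u := by rw [← Q.lift_ev, ← Q.lift_ev, h]
  exact Quotient.exact h1

theorem exists_tm (z : F) : ∃ s : Tm F, s.ev = z := by
  induction z using F.ind with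
  | h1 => exact ⟨Tm.leaf, rfl⟩
  | h2 a b c iha _ ihc =>
    obtain ⟨s, rfl⟩ := iha
    obtain ⟨u, rfl⟩ := ihc
    exact ⟨Tm.node s b u, rfl⟩

/-! ### the left subterm order -/

/-- left subterm order -/
inductive Le : F → F → Prop
  | refl (z : F) : Le z z
  | step {r a : F} (b c : F) : Le r a → Le r (t a b c)

theorem Le.trans {a b c : F} (h : Le a b) (h' : Le b c) : Le a c := by
  induction h' with
  | refl => exact h
  | step y z _ ih => exact Le.step y z ih

theorem Le.of_LS {a s : Tm F} (h : Tm.LS a s) : Le a.ev s.ev := by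
  induction h with
  | refl => exact Le.refl _
  | step b c _ ih => exact Le.step _ _ ih

theorem Le.exists_LS {r z : F} (h : Le r z) : ∃ a s : Tm F, Tm.LS a s ∧ a.ev = r ∧ s.ev = z := by
  induction h with
  | refl =>
    obtain ⟨s, hs⟩ := exists_tm r
    exact ⟨s, s, Tm.LS.refl _, hs, hs⟩
  | step b c _ ih =>
    obtain ⟨a, s, h1, h2, h3⟩ := ih
    obtain ⟨u, hu⟩ := exists_tm c
    exact ⟨a, Tm.node s b u, Tm.LS.step _ _ h1, h2, by rw [Tm.ev_node, h3, hu]⟩

theorem Le.total {r r' z : F} (h : Le r z) (h' : Le r' z) : Le r r' ∨ Le r' r := by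
  obtain ⟨a, s, h1, h2, h3⟩ := h.exists_LS
  obtain ⟨a', s', h1', h2', h3'⟩ := h'.exists_LS
  obtain ⟨d, hd, hd'⟩ := join_of_ev_eq (h3.trans h3'.symm)
  obtain ⟨b, hb, hb1⟩ := h1.persist hd
  obtain ⟨b', hb', hb1'⟩ := h1'.persist hd'
  have e1 : b.ev = r := by rw [← hb.ev_eq, h2]
  have e2 : b'.ev = r' := by rw [← hb'.ev_eq, h2']
  rcases hb1.total hb1' with h | h
  · left
    have := Le.of_LS h
    rwa [e1, e2] at this
  · right
    have := Le.of_LS h
    rwa [e1, e2] at this

/-- `Edge r b z` : the pair `(r,b)` is an edge on the way to `z` -/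
def Edge (r b z : F) : Prop := ∃ c, Le (t r b c) z

theorem Edge.le {r b z : F} (h : Edge r b z) : Le r z := by
  obtain ⟨c, hc⟩ := h
  exact (Le.step b c (Le.refl r)).trans hc

theorem Edge.mono {r b z z' : F} (h : Edge r b z) (h' : Le z z') : Edge r b z' := by
  obtain ⟨c, hc⟩ := h
  exact ⟨c, hc.trans h'⟩

/-- strict order gives an edge -/
theorem Le.edge_or_eq {r z : F} (h : Le r z) : r = z ∨ ∃ b, Edge r b z := by
  induction h with
  | refl => exact Or.inl rfl
  | step b c h ih =>
    right
    rcases ih with rfl | ⟨b', hb'⟩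
    · exact ⟨b, c, Le.refl _⟩
    · exact ⟨b', hb'.mono (Le.step _ _ (Le.refl _))⟩

/-- acyclicity of the order -/
def Acyclic : Prop := ∀ r a b c : F, Le r a → t a b c ≠ r

theorem Le.antisymm' (hA : Acyclic) {z z' : F} (h : Le z z') (h' : Le z' z) : z = z' := by
  cases h with
  | refl => rfl
  | step b c h1 => exact absurd rfl (hA _ _ b c (h'.trans h1))

theorem Edge.ne {r b z : F} (hA : Acyclic) (h : Edge r b z) : r ≠ z := by
  rintro rfl
  obtain ⟨c, hc⟩ := h
  exact hA _ _ b c hc rfl

theorem Edge.exists_LS {r b z : F} (h : Edge r b z) :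
    ∃ (a : Tm F) (e : Tm F) (s : Tm F), Tm.LS (Tm.node a b e) s ∧ a.ev = r ∧ s.ev = z := by
  obtain ⟨c, h⟩ := h
  obtain ⟨a, ha⟩ := exists_tm r
  obtain ⟨e, he⟩ := exists_tm c
  generalize hn : t r b c = n at h
  induction h with
  | refl => exact ⟨a, e, Tm.node a b e, Tm.LS.refl _, ha, by rw [Tm.ev_node, ha, he, hn]⟩
  | step b' c' _ ih =>
    obtain ⟨a1, e1, s1, h1, h2, h3⟩ := ih
    obtain ⟨u, hu⟩ := exists_tm c'
    exact ⟨a1, e1, Tm.node s1 b' u, Tm.LS.step _ _ h1, h2, by rw [Tm.ev_node, h3, hu]⟩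

/-- labels are unique -/
theorem Edge.unique (hA : Acyclic) {r b b' z : F} (h : Edge r b z) (h' : Edge r b' z) :
    b = b' := by
  obtain ⟨a1, e1, s1, h1, h2, h3⟩ := h.exists_LS
  obtain ⟨a2, e2, s2, h4, h5, h6⟩ := h'.exists_LS
  obtain ⟨d, hd, hd'⟩ := join_of_ev_eq (h3.trans h6.symm)
  obtain ⟨a3, e3, h7, h8⟩ := h1.edge hd
  obtain ⟨a4, e4, h9, h10⟩ := h4.edge hd'
  have E3 : a3.ev = r := h7.trans h2
  have E4 : a4.ev = r := h9.trans h5
  rcases h8.total h10 with h | h
  · cases h with
    | refl => rfl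
    | step _ _ h =>
      have := Le.of_LS h
      rw [Tm.ev_node, E3, E4] at this
      exact absurd rfl (hA _ _ _ _ this)
  · cases h with
    | refl => rfl
    | step _ _ h =>
      have := Le.of_LS h
      rw [Tm.ev_node, E3, E4] at this
      exact absurd rfl (hA _ _ _ _ this)

/-! ### homomorphisms -/

/-- endomorphisms of the operation -/
def Hom (φ : F → F) : Prop := ∀ a b c, φ (t a b c) = t (φ a) (φ b) (φ c)

theorem Hom.id : Hom (fun z => z) := fun _ _ _ => rfl

theorem Hom.comp {φ ψ : F → F} (h : Hom φ) (h' : Hom ψ) : Hom (fun z => φ (ψ z)) := by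
  intro a b c
  show φ (ψ (t a b c)) = _
  rw [h', h]

theorem Hom.left (a b : F) : Hom (fun z => t a b z) := fun _ _ _ => PE.ld _ _ _ _ _

theorem Hom.le {φ : F → F} (h : Hom φ) {r z : F} (h' : Le r z) : Le (φ r) (φ z) := by
  induction h' with
  | refl => exact Le.refl _
  | step b c _ ih => rw [h]; exact Le.step _ _ ih

theorem Hom.edge {φ : F → F} (h : Hom φ) {r b z : F} (h' : Edge r b z) :
    Edge (φ r) (φ b) (φ z) := by
  obtain ⟨c, hc⟩ := h'
  refine ⟨φ c, ?_⟩
  rw [← h]
  exact h.le hc

theorem pt_le (z : F) : Le pt z := by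
  induction z using F.ind with
  | h1 => exact Le.refl _
  | h2 a b c iha _ _ => exact Le.step _ _ iha

/-- multiplications by elements of the monoid: compositions of left translations -/
inductive Mul : (F → F) → Prop
  | id : Mul (fun z => z)
  | cons {φ : F → F} (a b : F) : Mul φ → Mul (fun z => t a b (φ z))

theorem Mul.hom {φ : F → F} (h : Mul φ) : Hom φ := by
  induction h with
  | id => exact Hom.id
  | @cons φ a b h ih => exact (Hom.left a b).comp ih

theorem Mul.comp {φ ψ : F → F} (h : Mul φ) (h' : Mul ψ) : Mul (fun z => φ (ψ z)) := by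
  induction h with
  | id => exact h'
  | @cons φ a b h ih => exact Mul.cons a b ih

/-! ### the diamond operation -/

/-- algebra structure used to define the diamond -/
@[instance_reducible] def diaPE (φ : F → F) (h : Hom φ) : PE (F × F) where
  t := fun a b c => (t a.1 b.1 c.1, t (φ a.1) (φ b.1) c.2)
  pt := (pt, pt)
  ld := by
    intro a b x y z
    refine Prod.ext (PE.ld _ _ _ _ _) ?_
    show t (φ a.1) (φ b.1) (t (φ x.1) (φ y.1) z.2) =
      t (φ (t a.1 b.1 x.1)) (φ (t a.1 b.1 y.1)) (t (φ a.1) (φ b.1) z.2)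
    rw [h, h]
    exact PE.ld _ _ _ _ _

/-- pair of `z` and `φ ⋄ z` -/
def diaPair (φ : F → F) (h : Hom φ) : F → F × F := @F.lift (F × F) (diaPE φ h)

theorem diaPair_t (φ : F → F) (h : Hom φ) (a b c : F) :
    diaPair φ h (t a b c) =
      (t (diaPair φ h a).1 (diaPair φ h b).1 (diaPair φ h c).1,
        t (φ (diaPair φ h a).1) (φ (diaPair φ h b).1) (diaPair φ h c).2) :=
  @F.lift_t (F × F) (diaPE φ h) a b c

theorem diaPair_fst (φ : F → F) (h : Hom φ) (z : F) : (diaPair φ h z).1 = z := by
  induction z using F.ind with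
  | h1 => rfl
  | h2 a b c iha ihb ihc =>
    rw [diaPair_t]
    show t _ _ _ = _
    rw [iha, ihb, ihc]

/-- the diamond: `φ ⋄ pt = pt`, `φ ⋄ t a b c = t (φ a) (φ b) (φ ⋄ c)` -/
def dia (φ : F → F) (h : Hom φ) (z : F) : F := (diaPair φ h z).2

theorem dia_pt (φ : F → F) (h : Hom φ) : dia φ h pt = pt := rfl

theorem dia_t (φ : F → F) (h : Hom φ) (a b c : F) :
    dia φ h (t a b c) = t (φ a) (φ b) (dia φ h c) := by
  unfold dia
  rw [diaPair_t]
  show t (φ _) (φ _) _ = _
  rw [diaPair_fst, diaPair_fst]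

theorem dia_le (φ : F → F) (h : Hom φ) (z : F) : Le (dia φ h z) (φ z) := by
  induction z using F.ind with
  | h1 => exact pt_le _
  | h2 a b c _ _ ihc =>
    rw [dia_t, h]
    exact (Hom.left _ _).le ihc

/-- if `a < q` then `φ a < φ ⋄ q` -/
theorem lt_dia (φ : F → F) (h : Hom φ) {a b q : F} (h' : Edge a b q) :
    ∃ b', Edge (φ a) b' (dia φ h q) := by
  obtain ⟨c, hc⟩ := h'
  generalize hn : t a b c = n at hc
  cases hc with
  | refl =>
    subst hn
    rw [dia_t]
    exact ⟨φ b, _, Le.refl _⟩
  | step b1 c1 h1 =>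
    subst hn
    rw [dia_t]
    refine ⟨φ b, φ c, ?_⟩
    rw [← h]
    exact Le.step _ _ (h.le h1)

end HB
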