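import Pool.Agent.Helper94.HB.Defs
import Pool.Agent.Helper94.HB.Core
import Pool.Agent.Helper8.HB.Theta

/-!
Self-distributivity of `tG` and the group side of the argument, assuming the Larue type lemma.
-/

namespace HB

open PE

theorem comm_tau0 (h : G) : Commute (tau 0) (sh (sh (sh h))) := by
  induction h using G_induction with
  | h1 => simp
  | ht n =>
    simp only [sh_tau]
    exact tau_comm 0 (n + 1 + 1 + 1) (by omega)
  | hm a b iha ihb =>
    simp only [map_mul]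
    exact iha.mul_right ihb
  | hi a iha =>
    simp only [map_inv]
    exact iha.inv_right

theorem comm_tau1 (h : G) : Commute (tau 1) (sh (sh (sh (sh h)))) := by
  have := (comm_tau0 h).map sh
  rwa [sh_tau] at this

theorem tG_aux {H : Type*} [Group H] (c X2 Y3 Z4 Y4 X3 c1 c2 c3 t0 t1 t2 : H)
    (h1 : Commute t0 Y3) (h2 : Commute t0 Z4) (h3 : Commute t1 Z4) (h4 : Commute t0 c3)
    (h5 : t0 * t1 * t2 * t0 = t2 * t0 * t1 * t2) (h6 : Commute t1 Y4) (h7 : Commute t0 Y4)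
    (h8 : Commute t0 X3) :
    c * (X2 * Y3 * Z4 * t2 * (X3 * Y4)⁻¹) * t0 * c1⁻¹ =
      (c * X2 * t0 * c1⁻¹) * (c1 * Y3 * t1 * c2⁻¹) * (c2 * Z4 * t2 * c3⁻¹) * t0 *
        ((c1 * X3 * t1 * c2⁻¹) * (c2 * Y4 * t2 * c3⁻¹))⁻¹ := by
  have e1 : t0 * Y3 = Y3 * t0 := h1
  have e2 : t0 * Z4 = Z4 * t0 := h2
  have e3 : t1 * Z4 = Z4 * t1 := h3
  have e4 : c3⁻¹ * t0 * c3 = t0 := by
    have : t0 * c3 = c3 * t0 := h4
    rw [mul_assoc, this, ← mul_assoc, inv_mul_cancel, one_mul]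
  have e6 : t1 * Y4⁻¹ = Y4⁻¹ * t1 := h6.inv_right
  have e7 : t0 * Y4⁻¹ = Y4⁻¹ * t0 := h7.inv_right
  have e8 : t0 * X3⁻¹ = X3⁻¹ * t0 := h8.inv_right
  calc c * (X2 * Y3 * Z4 * t2 * (X3 * Y4)⁻¹) * t0 * c1⁻¹
      = c * X2 * Y3 * Z4 * t2 * Y4⁻¹ * (X3⁻¹ * t0) * c1⁻¹ := by group
    _ = c * X2 * Y3 * Z4 * t2 * (Y4⁻¹ * t0) * X3⁻¹ * c1⁻¹ := by rw [← e8]; group
    _ = c * X2 * Y3 * Z4 * t2 * t0 * Y4⁻¹ * X3⁻¹ * c1⁻¹ := by rw [← e7]; group
    _ = c * X2 * Y3 * Z4 * t2 * t0 * (Y4⁻¹ * t1) * t1⁻¹ * X3⁻¹ * c1⁻¹ := by group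
    _ = c * X2 * Y3 * Z4 * (t2 * t0 * t1 * t2) * t2⁻¹ * Y4⁻¹ * t1⁻¹ * X3⁻¹ * c1⁻¹ := by
        rw [← e6]; group
    _ = c * X2 * Y3 * Z4 * (t0 * t1 * t2 * t0) * t2⁻¹ * Y4⁻¹ * t1⁻¹ * X3⁻¹ * c1⁻¹ := by
        rw [h5]
    _ = c * X2 * Y3 * (Z4 * t0) * t1 * t2 * t0 * t2⁻¹ * Y4⁻¹ * t1⁻¹ * X3⁻¹ * c1⁻¹ := by group
    _ = c * X2 * (Y3 * t0) * (Z4 * t1) * t2 * t0 * t2⁻¹ * Y4⁻¹ * t1⁻¹ * X3⁻¹ * c1⁻¹ := by
        rw [← e2]; group
    _ = c * X2 * (t0 * Y3) * (t1 * Z4) * t2 * t0 * t2⁻¹ * Y4⁻¹ * t1⁻¹ * X3⁻¹ * c1⁻¹ := by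
        rw [← e1, ← e3]
    _ = c * X2 * t0 * Y3 * t1 * Z4 * t2 * (c3⁻¹ * t0 * c3) * t2⁻¹ * Y4⁻¹ * t1⁻¹ * X3⁻¹ *
          c1⁻¹ := by rw [e4]; group
    _ = _ := by group

theorem tG_ld (a b x y z : G) :
    tG a b (tG x y z) = tG (tG a b x) (tG a b y) (tG a b z) := by
  have h := tG_aux (a * sh b) (sh (sh x)) (sh (sh (sh y))) (sh (sh (sh (sh z))))
    (sh (sh (sh (sh y)))) (sh (sh (sh x))) (sh (a * sh b)) (sh (sh (a * sh b)))
    (sh (sh (sh (a * sh b)))) (tau 0) (tau 1) (tau 2) (comm_tau0 _) (comm_tau0 _)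
    (comm_tau1 _) (comm_tau0 _) (tau_rel 0) (comm_tau1 _) (comm_tau0 _) (comm_tau0 _)
  have e1 : tG a b (tG x y z) = a * sh b * (sh (sh x) * sh (sh (sh y)) * sh (sh (sh (sh z))) *
      tau 2 * (sh (sh (sh x)) * sh (sh (sh (sh y))))⁻¹) * tau 0 * (sh (a * sh b))⁻¹ := by
    simp only [tG, map_mul, map_inv, sh_tau]
  have e2 : tG (tG a b x) (tG a b y) (tG a b z) =
      (a * sh b * sh (sh x) * tau 0 * (sh (a * sh b))⁻¹) *
      (sh (a * sh b) * sh (sh (sh y)) * tau 1 * (sh (sh (a * sh b)))⁻¹) *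
      (sh (sh (a * sh b)) * sh (sh (sh (sh z))) * tau 2 * (sh (sh (sh (a * sh b))))⁻¹) * tau 0 *
      ((sh (a * sh b) * sh (sh (sh x)) * tau 1 * (sh (sh (a * sh b)))⁻¹) *
        (sh (sh (a * sh b)) * sh (sh (sh (sh y))) * tau 2 * (sh (sh (sh (a * sh b))))⁻¹))⁻¹ := by
    simp only [tG, map_mul, map_inv, sh_tau]
  rw [e1, e2]
  exact h

/-- `(G, tG)` pointed at `g` -/
@[instance_reducible] def gPE (g : G) : PE G := ⟨tG, g, tG_ld⟩

/-- evaluation on the free algebra -/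
def evalF (g : G) : F → G := @F.lift G (gPE g)

theorem evalF_pt (g : G) : evalF g pt = g := rfl

theorem evalF_t (g : G) (a b c : F) :
    evalF g (t a b c) = tG (evalF g a) (evalF g b) (evalF g c) :=
  @F.lift_t G (gPE g) a b c

theorem evalF_mk (g : G) (p : Term) : evalF g (F.mk p) = p.eval g := by
  induction p with
  | var => rfl
  | op a b c iha ihb ihc =>
    rw [← F.op_mk]
    show evalF g (t (F.mk a) (F.mk b) (F.mk c)) = _
    rw [evalF_t, iha, ihb, ihc]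
    rfl

theorem PosW.mul_sh {v0 w : G} (h : PosW v0 w) (v : G) : PosW v0 (w * sh v) := by
  cases h with
  | base =>
    rw [mul_assoc, ← map_mul]
    exact PosW.base _ _
  | step v' h =>
    rw [mul_assoc, ← map_mul]
    exact PosW.step _ h

theorem path_posW (g : G) {r b p : F} (h : Edge r b p) :
    ∃ x w, PosW (evalF g b * sh x) w ∧ evalF g p = evalF g r * w := by
  obtain ⟨c, hc⟩ := h
  generalize hn : t r b c = n at hc
  induction hc with
  | refl =>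
    subst hn
    refine ⟨evalF g c, _, PosW.base (evalF g b * sh (evalF g c)) (evalF g r * sh (evalF g b))⁻¹,
      ?_⟩
    rw [evalF_t, tG]
    simp only [map_mul, map_inv]
    group
  | @step a b' c' h ih =>
    obtain ⟨x, w, h1, h2⟩ := ih
    refine ⟨x, _, PosW.step (evalF g a * sh (evalF g b'))⁻¹
      (h1.mul_sh (evalF g b' * sh (evalF g c'))), ?_⟩
    rw [evalF_t, tG]
    simp only [h2, map_mul, map_inv, mul_inv_rev, mul_assoc]

/-- the statement of the Larue type lemma -/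
def LarueStmt : Prop := ∀ v0 w : G, PosW v0 w →
  (act gen w 0).1.toWord.head? = some (enc 0 (act (tl gen) v0 0), true)

theorem not_posW_one (hL : LarueStmt) (v0 : G) : ¬ PosW v0 1 := by
  intro h
  have := hL v0 1 h
  simp [gen] at this

theorem acyclic (hL : LarueStmt) : Acyclic := by
  intro r a b c h h'
  -- an edge from `r` to itself
  have h1 : Edge a b r := ⟨c, by rw [h']; exact Le.refl _⟩
  have h2 : ∃ b', Edge r b' r := by
    rcases h.edge_or_eq with rfl | ⟨b', hb'⟩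
    · exact ⟨b, h1⟩
    · exact ⟨b', hb'.mono h1.le⟩
  obtain ⟨b', hb'⟩ := h2
  obtain ⟨x, w, h3, h4⟩ := path_posW 1 hb'
  have : w = 1 := by
    have := h4
    rw [left_eq_mul] at this
    exact this
  subst this
  exact not_posW_one hL _ h3

/-- the relation tested by first coordinates -/
def Rg (g : G) (p q : F) : Prop := ∀ s : ℕ → X, act s (evalF g p) 0 = act s (evalF g q) 0

theorem Rg_symm {g : G} {p q : F} (h : Rg g p q) : Rg g q p := fun s => (h s).symm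

theorem Rg_edge (hL : LarueStmt) {g : G} {p q : F} (h : Rg g p q) {b : F}
    (h' : Edge p b q) : False := by
  obtain ⟨x, w, h1, h2⟩ := path_posW g h'
  have h3 := h (act gen (evalF g p)⁻¹)
  rw [h2, act_mul, act_inv_act] at h3
  have h4 := hL _ _ h1
  rw [← h3] at h4
  simp [gen] at h4

theorem good_Rg (hL : LarueStmt) (g : G) : Good (Rg g) := by
  refine ⟨?_, ?_, ?_⟩
  · intro p q r b b' h h1 h2 s
    obtain ⟨x, w, h3, h4⟩ := path_posW g h1
    obtain ⟨x', w', h5, h6⟩ := path_posW g h2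
    have h7 := h (act gen (evalF g r)⁻¹)
    rw [h4, h6, act_mul, act_mul, act_inv_act] at h7
    have h8 := hL _ _ h3
    have h9 := hL _ _ h5
    rw [h7, h9] at h8
    have h10 := (enc_inj (congrArg Prod.fst (Option.some_inj.1 h8))).2
    rw [act_mul, act_mul, act_sh_zero, act_sh_zero] at h10
    -- specialise
    have h11 : ∀ k : G, act s k 0 = thX (fun i => s (i - 1)) (act (tl gen) k 0) := by
      intro k
      rw [thX_act]
      congr 2
      funext j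
      show s j = thX (fun i => s (i - 1)) (gen (j + 1))
      rw [thX_gen]
      rfl
    rw [h11, h11, h10]
  · intro p q h h'
    rcases h'.edge_or_eq with h1 | ⟨b, hb⟩
    · exact h1
    · exact (Rg_edge hL h hb).elim
  · intro p q h h'
    rcases h'.edge_or_eq with h1 | ⟨b, hb⟩
    · exact h1.symm
    · exact (Rg_edge hL (Rg_symm h) hb).elim

theorem evalF_injective_of (hL : LarueStmt) (g : G) : Function.Injective (evalF g) := by
  intro p q h
  exact main (acyclic hL) (good_Rg hL g) (fun s => by rw [h])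

end HB
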