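import Pool.Agent.Helper94.HB.Compare

/-!
Levels of the free algebra, block structured labelled terms.
-/

namespace HB

open PE

/-- pairs `(φ x, φ y)` with `x, y ∈ S` -/
def OO (S : Set F) : F → F → Prop :=
  fun r b => ∃ φ, Mul φ ∧ ∃ x ∈ S, ∃ y ∈ S, φ x = r ∧ φ y = b

/-- all nodes satisfy `O` -/
def AllN (O : F → F → Prop) : Tm F → Prop
  | .leaf => True
  | .node a b c => AllN O a ∧ O a.ev b ∧ AllN O c

/-- values of terms all whose nodes satisfy `O` -/
def VV (O : F → F → Prop) : Set F := {z | ∃ s : Tm F, s.ev = z ∧ AllN O s}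

/-- levels -/
def MM : ℕ → Set F
  | 0 => {pt}
  | n + 1 => VV (OO (MM n))

/-- invariance -/
def Inv (O : F → F → Prop) : Prop := ∀ φ, Mul φ → ∀ r b, O r b → O (φ r) (φ b)

theorem OO_inv (S : Set F) : Inv (OO S) := by
  rintro φ hφ r b ⟨ψ, hψ, x, hx, y, hy, rfl, rfl⟩
  exact ⟨fun z => φ (ψ z), hφ.comp hψ, x, hx, y, hy, rfl, rfl⟩

theorem OO_mono {S S' : Set F} (h : S ⊆ S') {r b : F} (h' : OO S r b) : OO S' r b := by
  obtain ⟨ψ, hψ, x, hx, y, hy, h1, h2⟩ := h'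
  exact ⟨ψ, hψ, x, h hx, y, h hy, h1, h2⟩

theorem AllN_mono {O O' : F → F → Prop} (h : ∀ r b, O r b → O' r b) {s : Tm F}
    (hs : AllN O s) : AllN O' s := by
  induction s with
  | leaf => trivial
  | node a b c iha ihc => exact ⟨iha hs.1, h _ _ hs.2.1, ihc hs.2.2⟩

theorem AllN_step {O : F → F → Prop} (hO : Inv O) {s s' : Tm F} (h : Tm.Step s s')
    (hs : AllN O s) : AllN O s' := by
  induction h with
  | root a b x y z =>
    obtain ⟨h1, h2, h3, h4, h5⟩ := hs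
    exact ⟨⟨h1, h2, h3⟩, hO _ (Mul.cons a.ev b Mul.id) _ _ h4, ⟨h1, h2, h5⟩⟩
  | left b c h ih => exact ⟨ih hs.1, h.ev_eq ▸ hs.2.1, hs.2.2⟩
  | right a b h ih => exact ⟨hs.1, hs.2.1, ih hs.2.2⟩

theorem AllN_steps {O : F → F → Prop} (hO : Inv O) {s s' : Tm F} (h : Tm.Steps s s')
    (hs : AllN O s) : AllN O s' := by
  induction h with
  | refl => exact hs
  | tail _ h ih => exact AllN_step hO h ih

theorem AllN_LS {O : F → F → Prop} {a s : Tm F} (h : Tm.LS a s) (hs : AllN O s) : AllN O a := by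
  induction h with
  | refl => exact hs
  | step b c _ ih => exact ih hs.1

theorem VV_le {O : F → F → Prop} (hO : Inv O) {r z : F} (h : Le r z) (hz : z ∈ VV O) :
    r ∈ VV O := by
  obtain ⟨s0, hs0, hs1⟩ := hz
  obtain ⟨a, s, h1, h2, h3⟩ := h.exists_LS
  obtain ⟨d, hd, hd'⟩ := join_of_ev_eq (h3.trans hs0.symm)
  obtain ⟨a', h4, h5⟩ := h1.persist hd
  exact ⟨a', by rw [← h4.ev_eq, h2], AllN_LS h5 (AllN_steps hO hd' hs1)⟩

theorem VV_edge {O : F → F → Prop} (hO : Inv O) {r b z : F} (h : Edge r b z) (hz : z ∈ VV O) :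
    O r b := by
  obtain ⟨s0, hs0, hs1⟩ := hz
  obtain ⟨a, e, s, h1, h2, h3⟩ := h.exists_LS
  obtain ⟨d, hd, hd'⟩ := join_of_ev_eq (h3.trans hs0.symm)
  obtain ⟨a', e', h4, h5⟩ := h1.edge hd
  have := AllN_LS h5 (AllN_steps hO hd' hs1)
  have h6 := this.2.1
  rwa [h4, h2] at h6

theorem VV_pt (O : F → F → Prop) : (pt : F) ∈ VV O := ⟨.leaf, rfl, trivial⟩

theorem VV_t {O : F → F → Prop} {r b z : F} (hr : r ∈ VV O) (h : O r b) (hz : z ∈ VV O) :
    t r b z ∈ VV O := by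
  obtain ⟨s, hs, hs'⟩ := hr
  obtain ⟨u, hu, hu'⟩ := hz
  exact ⟨.node s b u, by rw [Tm.ev_node, hs, hu], hs', by rw [hs]; exact h, hu'⟩

theorem MM_mono_succ (n : ℕ) : MM n ⊆ MM (n + 1) := by
  induction n with
  | zero =>
    intro z hz
    have : z = pt := hz
    subst this
    exact VV_pt _
  | succ n ih =>
    rintro z ⟨s, hs, hs'⟩
    exact ⟨s, hs, AllN_mono (fun _ _ h => OO_mono ih h) hs'⟩

theorem MM_mono {n m : ℕ} (h : n ≤ m) : MM n ⊆ MM m := by
  induction h with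
  | refl => exact subset_rfl
  | step _ ih => exact ih.trans (MM_mono_succ _)

theorem exists_level (z : F) : ∃ n, z ∈ MM n := by
  induction z using F.ind with
  | h1 => exact ⟨0, rfl⟩
  | h2 a b c iha ihb ihc =>
    obtain ⟨i, hi⟩ := iha
    obtain ⟨j, hj⟩ := ihb
    obtain ⟨k, hk⟩ := ihc
    have h1 : a ∈ MM (max i (max j k) + 1) := MM_mono (by omega) hi
    have h2 : c ∈ MM (max i (max j k) + 1) := MM_mono (by omega) hk
    exact ⟨max i (max j k) + 1, VV_t h1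
      ⟨fun z => z, Mul.id, a, MM_mono (by omega) hi, b, MM_mono (by omega) hj, rfl, rfl⟩ h2⟩

/-! ### structured labelled terms -/

/-- structured labelled terms -/
inductive SS (m : F → F) (O : F → F → Prop) : Tm F → F → Prop
  | leaf : SS m O .leaf pt
  | trans {a c : Tm F} {b r r2 d r' : F} (h1 : SS m O a r) (h2 : a.ev = m r)
      (h3 : SS m O c r2) (h4 : O r d) (h5 : b = m d) (h6 : r' = t r d r2) :
      SS m O (.node a b c) r'
  | inner {a : Tm F} {r : F} (b : F) (c : Tm F) (h1 : SS m O a r)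
      (h2 : Le (Tm.node a b c).ev (m r)) : SS m O (.node a b c) r

theorem SS_step {m : F → F} (hm : Mul m) {O : F → F → Prop} (hO : Inv O) {s s' : Tm F}
    (h : Tm.Step s s') : ∀ {r : F}, SS m O s r → SS m O s' r := by
  induction h with
  | root a b x y z =>
    intro r hr
    cases hr with
    | @trans _ _ _ r1 r2 d _ h1 h2 h3 h4 h5 h6 =>
      subst h5 h6
      cases h3 with
      | @trans _ _ _ r3 r4 d3 _ k1 k2 k3 k4 k5 k6 =>
        subst k5 k6
        refine SS.trans (r := t r1 d r3) (r2 := t r1 d r4) (d := t r1 d d3)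
          (SS.trans h1 h2 k1 h4 rfl rfl) ?_ (SS.trans h1 h2 k3 h4 rfl rfl) ?_ ?_ ?_
        · rw [Tm.ev_node, h2, k2, hm.hom]
        · exact hO _ (Mul.cons r1 d Mul.id) _ _ k4
        · rw [h2, hm.hom]
        · exact PE.ld _ _ _ _ _
      | inner _ _ k1 k2 =>
        refine SS.inner _ _ (SS.trans h1 h2 k1 h4 rfl rfl) ?_
        rw [← (Tm.Step.root a (m d) x y z).ev_eq, hm.hom]
        have := (Hom.left a.ev (m d)).le k2
        rw [Tm.ev_node, ← h2]
        exact this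
    | inner _ _ h1 h2 =>
      refine SS.inner _ _ (SS.inner _ _ h1 ?_) ?_
      · have e := (Tm.Step.root a b x y z).ev_eq
        rw [e] at h2
        exact (Le.step _ _ (Le.refl _)).trans h2
      · rw [← (Tm.Step.root a b x y z).ev_eq]
        exact h2
  | left b c h ih =>
    intro r hr
    cases hr with
    | trans h1 h2 h3 h4 h5 h6 => exact SS.trans (ih h1) (h.ev_eq ▸ h2) h3 h4 h5 h6
    | inner _ _ h1 h2 =>
      refine SS.inner _ _ (ih h1) ?_
      rw [← (Tm.Step.left b c h).ev_eq]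
      exact h2
  | right a b h ih =>
    intro r hr
    cases hr with
    | trans h1 h2 h3 h4 h5 h6 => exact SS.trans h1 h2 (ih h3) h4 h5 h6
    | inner _ _ h1 h2 =>
      refine SS.inner _ _ h1 ?_
      rw [← (Tm.Step.right a b h).ev_eq]
      exact h2

theorem SS_steps {m : F → F} (hm : Mul m) {O : F → F → Prop} (hO : Inv O) {s s' : Tm F}
    (h : Tm.Steps s s') {r : F} (hr : SS m O s r) : SS m O s' r := by
  induction h with
  | refl => exact hr
  | tail _ h ih => exact SS_step hm hO h ih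

theorem SS_bounds {m : F → F} (hm : Mul m) {O : F → F → Prop} {s : Tm F} {r : F}
    (h : SS m O s r) : Le (dia m hm.hom r) s.ev ∧ Le s.ev (m r) := by
  induction h with
  | leaf => exact ⟨Le.refl _, pt_le _⟩
  | trans h1 h2 h3 h4 h5 h6 ih1 ih3 =>
    subst h5 h6
    rw [Tm.ev_node, h2, dia_t, hm.hom]
    exact ⟨(Hom.left _ _).le ih3.1, (Hom.left _ _).le ih3.2⟩
  | inner b c h1 h2 ih => exact ⟨ih.1.trans (Le.step _ _ (Le.refl _)), h2⟩

theorem SS_LS {m : F → F} {O : F → F → Prop} {a s : Tm F} (h : Tm.LS a s) :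
    ∀ {r : F}, SS m O s r → ∃ r', Le r' r ∧ SS m O a r' := by
  induction h with
  | refl => intro r hr; exact ⟨r, Le.refl _, hr⟩
  | step b c _ ih =>
    intro r hr
    cases hr with
    | @trans _ _ _ r1 r2 d _ h1 h2 h3 h4 h5 h6 =>
      obtain ⟨r', h7, h8⟩ := ih h1
      refine ⟨r', ?_, h8⟩
      rw [h6]
      exact Le.step _ _ h7
    | inner _ _ h1 h2 => exact ih h1

theorem SS_mem {m : F → F} {O : F → F → Prop} {s : Tm F} {r : F} (h : SS m O s r) :
    r ∈ VV O := by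
  induction h with
  | leaf => exact VV_pt _
  | trans h1 h2 h3 h4 h5 h6 ih1 ih3 => rw [h6]; exact VV_t ih1 h4 ih3
  | inner b c h1 h2 ih => exact ih

theorem SS_base {m : F → F} {O : F → F → Prop} {s : Tm F} (h : Le s.ev (m pt)) :
    SS m O s pt := by
  induction s with
  | leaf => exact SS.leaf
  | node a b c iha ihc =>
    exact SS.inner _ _ (iha ((Le.step b c.ev (Le.refl _)).trans h)) h

theorem SS_exists {m : F → F} (hm : Mul m) {O : F → F → Prop} {y : F} (hy : y ∈ VV O) :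
    ∃ s, SS m O s y ∧ s.ev = m y := by
  obtain ⟨u, rfl, hu⟩ := hy
  induction u with
  | leaf =>
    obtain ⟨s, hs⟩ := exists_tm (m pt)
    exact ⟨s, SS_base (by rw [hs]; exact Le.refl _), hs⟩
  | node a b c iha ihc =>
    obtain ⟨s1, h1, h2⟩ := iha hu.1
    obtain ⟨s3, h3, h4⟩ := ihc hu.2.2
    refine ⟨.node s1 (m b) s3, SS.trans h1 h2 h3 hu.2.1 rfl rfl, ?_⟩
    rw [Tm.ev_node, Tm.ev_node, hm.hom, h2, h4]

theorem SS_below {m : F → F} (hm : Mul m) {O : F → F → Prop} (hO : Inv O) {y w : F}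
    (hy : y ∈ VV O) (hw : Le w (m y)) : ∃ s r, SS m O s r ∧ s.ev = w ∧ Le r y := by
  obtain ⟨s0, h1, h2⟩ := SS_exists hm hy
  obtain ⟨a, s, h3, h4, h5⟩ := hw.exists_LS
  obtain ⟨d, hd, hd'⟩ := join_of_ev_eq (h5.trans h2.symm)
  obtain ⟨a', h6, h7⟩ := h3.persist hd
  obtain ⟨r, h8, h9⟩ := SS_LS h7 (SS_steps hm hO hd' h1)
  exact ⟨a', r, h9, by rw [← h6.ev_eq, h4], h8⟩

/-- a common structured term -/
theorem SS_common {m m' : F → F} (hm : Mul m) (hm' : Mul m') {O : F → F → Prop} (hO : Inv O)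
    {y y' w : F} (hy : y ∈ VV O) (hy' : y' ∈ VV O) (hw : Le w (m y)) (hw' : Le w (m' y')) :
    ∃ s r r', SS m O s r ∧ SS m' O s r' ∧ s.ev = w ∧ Le r y ∧ Le r' y' := by
  obtain ⟨s, r, h1, h2, h3⟩ := SS_below hm hO hy hw
  obtain ⟨s', r', h1', h2', h3'⟩ := SS_below hm' hO hy' hw'
  obtain ⟨d, hd, hd'⟩ := join_of_ev_eq (h2.trans h2'.symm)
  exact ⟨d, r, r', SS_steps hm hO hd h1, SS_steps hm' hO hd' h1', by rw [← hd.ev_eq, h2],
    h3, h3'⟩

end HB
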