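import Pool.Agent.Helper94.HB.Defs

/-!
A ternary rack `X = FreeGroup ℕ × ℕ` on which `G` acts (on sequences, from the right).
Letters `L_{i,y}` (`i : ℕ`, `y : X`) are coded by natural numbers bigger than all the letters
occurring in `y`.
-/

namespace HB

abbrev Gam : Type := FreeGroup ℕ
abbrev X : Type := Gam × ℕ

/-- code of the letter `L_{i,y}` -/
def enc (i : ℕ) (y : X) : ℕ := Nat.pair i (Nat.pair (Encodable.encode y.1.toWord) y.2)

theorem enc_inj {i i' : ℕ} {y y' : X} (h : enc i y = enc i' y') : i = i' ∧ y = y' := by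
  unfold enc at h
  rw [Nat.pair_eq_pair, Nat.pair_eq_pair] at h
  obtain ⟨h1, h2, h3⟩ := h
  refine ⟨h1, Prod.ext ?_ h3⟩
  exact FreeGroup.toWord_injective (Encodable.encode_injective h2)

theorem lt_encode_list {l : List (ℕ × Bool)} {x : ℕ × Bool} (h : x ∈ l) :
    x.1 < Encodable.encode l := by
  induction l with
  | nil => simp at h
  | cons a l ih =>
    rw [Encodable.encode_list_cons]
    rcases List.mem_cons.1 h with rfl | h
    · have h1 : x.1 ≤ Encodable.encode x := by
        rw [Encodable.encode_prod_val]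
        exact Nat.left_le_pair _ _
      have h2 := Nat.left_le_pair (Encodable.encode x) (Encodable.encode l)
      omega
    · have h2 := Nat.right_le_pair (Encodable.encode a) (Encodable.encode l)
      have := ih h
      omega

theorem enc_lt {i : ℕ} {y : X} {x : ℕ × Bool} (h : x ∈ y.1.toWord) : x.1 < enc i y := by
  have h1 := lt_encode_list h
  have h2 := Nat.left_le_pair (Encodable.encode y.1.toWord) y.2
  have h3 := Nat.right_le_pair i (Nat.pair (Encodable.encode y.1.toWord) y.2)
  unfold enc
  omega

/-- the letter `L_{i,y}` -/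
def letter (i : ℕ) (y : X) : Gam := FreeGroup.of (enc i y)

/-- left multiplication of a point of `X` by a group element -/
def mulX (d : Gam) (y : X) : X := (d * y.1, y.2)

@[simp] theorem mulX_mul (d e : Gam) (y : X) : mulX (d * e) y = mulX d (mulX e y) := by
  simp [mulX, mul_assoc]

@[simp] theorem mulX_one (y : X) : mulX 1 y = y := by simp [mulX]

@[simp] theorem mulX_fst (d : Gam) (y : X) : (mulX d y).1 = d * y.1 := rfl
@[simp] theorem mulX_snd (d : Gam) (y : X) : (mulX d y).2 = y.2 := rfl

/-- `λ(a,b)`, the group element by which `t(a,b,·)` multiplies -/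
def lam (a b : X) : Gam := a.1 * letter a.2 (mulX a.1⁻¹ b) * a.1⁻¹

theorem lam_mulX (d : Gam) (a b : X) : lam (mulX d a) (mulX d b) = d * lam a b * d⁻¹ := by
  unfold lam
  have : mulX (mulX d a).1⁻¹ (mulX d b) = mulX a.1⁻¹ b := by
    simp [mulX, mul_assoc]
  rw [this]
  simp [mul_assoc]

/-- the ternary rack operation -/
def tX (a b c : X) : X := mulX (lam a b) c

theorem tX_ld (a b x y z : X) : tX a b (tX x y z) = tX (tX a b x) (tX a b y) (tX a b z) := by
  unfold tX
  rw [lam_mulX]
  simp only [← mulX_mul]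
  congr 1
  group

theorem tX_inv (a b c : X) : tX a b (mulX (lam a b)⁻¹ c) = c := by
  unfold tX
  rw [← mulX_mul]
  simp

theorem inv_tX (a b c : X) : mulX (lam a b)⁻¹ (tX a b c) = c := by
  unfold tX
  rw [← mulX_mul]
  simp

/-- action of `τ_{n}` on sequences -/
def sig (n : ℕ) (s : ℕ → X) : ℕ → X := fun i =>
  if i = n then tX (s n) (s (n + 1)) (s (n + 2)) else
  if i = n + 1 then s n else
  if i = n + 2 then s (n + 1) else s i

/-- inverse action of `τ_{n}` on sequences -/
def sigInv (n : ℕ) (s : ℕ → X) : ℕ → X := fun i =>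
  if i = n then s (n + 1) else
  if i = n + 1 then s (n + 2) else
  if i = n + 2 then mulX (lam (s (n + 1)) (s (n + 2)))⁻¹ (s n) else s i

/-- the permutation of the set of sequences given by `τ_n` -/
def sigE (n : ℕ) : Equiv.Perm (ℕ → X) where
  toFun := sig n
  invFun := sigInv n
  left_inv s := by
    funext i
    unfold sigInv sig
    by_cases h0 : i = n
    · simp [h0]
    · by_cases h1 : i = n + 1
      · simp [h1]
      · by_cases h2 : i = n + 2
        · simp [h2, inv_tX]
        · simp [h0, h1, h2]
  right_inv s := by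
    funext i
    unfold sigInv sig
    by_cases h0 : i = n
    · simp [h0, tX_inv]
    · by_cases h1 : i = n + 1
      · simp [h1]
      · by_cases h2 : i = n + 2
        · simp [h2]
        · simp [h0, h1, h2]

theorem sig_zero (n : ℕ) (s : ℕ → X) : sig n s n = tX (s n) (s (n + 1)) (s (n + 2)) := by
  simp [sig]

theorem sig_one (n : ℕ) (s : ℕ → X) : sig n s (n + 1) = s n := by
  simp [sig]

theorem sig_two (n : ℕ) (s : ℕ → X) : sig n s (n + 2) = s (n + 1) := by
  simp [sig]

theorem sig_ne {n i : ℕ} (s : ℕ → X) (h : i < n ∨ n + 2 < i) : sig n s i = s i := by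
  have h0 : i ≠ n := by omega
  have h1 : i ≠ n + 1 := by omega
  have h2 : i ≠ n + 2 := by omega
  simp [sig, h0, h1, h2]

theorem sig_rel (n : ℕ) (s : ℕ → X) :
    sig n (sig (n + 2) (sig (n + 1) (sig n s))) =
      sig (n + 2) (sig (n + 1) (sig n (sig (n + 2) s))) := by
  have A0 : sig n s n = tX (s n) (s (n + 1)) (s (n + 2)) := sig_zero n s
  have A1 : sig n s (n + 1) = s n := sig_one n s
  have A2 : sig n s (n + 2) = s (n + 1) := sig_two n s
  have A3 : sig n s (n + 3) = s (n + 3) := sig_ne s (by omega)
  have A4 : sig n s (n + 4) = s (n + 4) := sig_ne s (by omega)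
  have B0 : sig (n + 1) (sig n s) n = tX (s n) (s (n + 1)) (s (n + 2)) := by
    rw [sig_ne _ (by omega), A0]
  have B1 : sig (n + 1) (sig n s) (n + 1) = tX (s n) (s (n + 1)) (s (n + 3)) := by
    rw [sig_zero, A1]
    show tX (s n) (sig n s (n + 2)) (sig n s (n + 3)) = _
    rw [A2, A3]
  have B2 : sig (n + 1) (sig n s) (n + 2) = s n := by
    show sig (n + 1) (sig n s) (n + 1 + 1) = _
    rw [sig_one, A1]
  have B3 : sig (n + 1) (sig n s) (n + 3) = s (n + 1) := by
    show sig (n + 1) (sig n s) (n + 1 + 2) = _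
    rw [sig_two]
    exact A2
  have B4 : sig (n + 1) (sig n s) (n + 4) = s (n + 4) := by
    rw [sig_ne _ (by omega), A4]
  have C0 : sig (n + 2) (sig (n + 1) (sig n s)) n = tX (s n) (s (n + 1)) (s (n + 2)) := by
    rw [sig_ne _ (by omega), B0]
  have C1 : sig (n + 2) (sig (n + 1) (sig n s)) (n + 1) =
      tX (s n) (s (n + 1)) (s (n + 3)) := by
    rw [sig_ne _ (by omega), B1]
  have C2 : sig (n + 2) (sig (n + 1) (sig n s)) (n + 2) =
      tX (s n) (s (n + 1)) (s (n + 4)) := by
    rw [sig_zero, B2]
    show tX (s n) (sig (n + 1) (sig n s) (n + 3)) (sig (n + 1) (sig n s) (n + 4)) = _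
    rw [B3, B4]
  have C3 : sig (n + 2) (sig (n + 1) (sig n s)) (n + 3) = s n := by
    show sig (n + 2) (sig (n + 1) (sig n s)) (n + 2 + 1) = _
    rw [sig_one, B2]
  have C4 : sig (n + 2) (sig (n + 1) (sig n s)) (n + 4) = s (n + 1) := by
    show sig (n + 2) (sig (n + 1) (sig n s)) (n + 2 + 2) = _
    rw [sig_two]
    exact B3
  have D0 : sig (n + 2) s n = s n := sig_ne s (by omega)
  have D1 : sig (n + 2) s (n + 1) = s (n + 1) := sig_ne s (by omega)
  have D2 : sig (n + 2) s (n + 2) = tX (s (n + 2)) (s (n + 3)) (s (n + 4)) := sig_zero _ s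
  have D3 : sig (n + 2) s (n + 3) = s (n + 2) := sig_one (n + 2) s
  have D4 : sig (n + 2) s (n + 4) = s (n + 3) := sig_two (n + 2) s
  have E0 : sig n (sig (n + 2) s) n =
      tX (s n) (s (n + 1)) (tX (s (n + 2)) (s (n + 3)) (s (n + 4))) := by
    rw [sig_zero, D0, D1, D2]
  have E1 : sig n (sig (n + 2) s) (n + 1) = s n := by rw [sig_one, D0]
  have E2 : sig n (sig (n + 2) s) (n + 2) = s (n + 1) := by rw [sig_two, D1]
  have E3 : sig n (sig (n + 2) s) (n + 3) = s (n + 2) := by
    rw [sig_ne _ (by omega), D3]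
  have E4 : sig n (sig (n + 2) s) (n + 4) = s (n + 3) := by
    rw [sig_ne _ (by omega), D4]
  have F0 : sig (n + 1) (sig n (sig (n + 2) s)) n =
      tX (s n) (s (n + 1)) (tX (s (n + 2)) (s (n + 3)) (s (n + 4))) := by
    rw [sig_ne _ (by omega), E0]
  have F1 : sig (n + 1) (sig n (sig (n + 2) s)) (n + 1) =
      tX (s n) (s (n + 1)) (s (n + 2)) := by
    rw [sig_zero, E1]
    show tX (s n) (sig n (sig (n + 2) s) (n + 2)) (sig n (sig (n + 2) s) (n + 3)) = _
    rw [E2, E3]
  have F2 : sig (n + 1) (sig n (sig (n + 2) s)) (n + 2) = s n := by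
    show sig (n + 1) _ (n + 1 + 1) = _
    rw [sig_one, E1]
  have F3 : sig (n + 1) (sig n (sig (n + 2) s)) (n + 3) = s (n + 1) := by
    show sig (n + 1) _ (n + 1 + 2) = _
    rw [sig_two]
    exact E2
  have F4 : sig (n + 1) (sig n (sig (n + 2) s)) (n + 4) = s (n + 3) := by
    rw [sig_ne _ (by omega), E4]
  funext i
  by_cases h0 : i = n
  · subst h0
    rw [sig_zero, C0, C1, C2, sig_ne _ (by omega), F0]
    exact (tX_ld _ _ _ _ _).symm
  · by_cases h1 : i = n + 1
    · subst h1
      rw [sig_one, C0, sig_ne _ (by omega), F1]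
    · by_cases h2 : i = n + 2
      · subst h2
        rw [sig_two, C1, sig_zero, F2]
        show _ = tX (s n) (sig (n + 1) (sig n (sig (n + 2) s)) (n + 3))
          (sig (n + 1) (sig n (sig (n + 2) s)) (n + 4))
        rw [F3, F4]
      · by_cases h3 : i = n + 3
        · subst h3
          rw [sig_ne _ (by omega), C3]
          show _ = sig (n + 2) _ (n + 2 + 1)
          rw [sig_one, F2]
        · by_cases h4 : i = n + 4
          · subst h4
            rw [sig_ne _ (by omega), C4]
            show _ = sig (n + 2) _ (n + 2 + 2)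
            rw [sig_two]
            exact F3.symm
          · rw [sig_ne _ (by omega), sig_ne _ (by omega), sig_ne _ (by omega),
              sig_ne _ (by omega), sig_ne _ (by omega), sig_ne _ (by omega),
              sig_ne _ (by omega), sig_ne _ (by omega)]

theorem sig_comm (i j : ℕ) (h : i + 2 < j) (s : ℕ → X) :
    sig j (sig i s) = sig i (sig j s) := by
  have I0 : sig i (sig j s) i = sig i s i := by
    rw [sig_zero, sig_zero, sig_ne _ (by omega), sig_ne _ (by omega), sig_ne _ (by omega)]
  have I1 : sig i (sig j s) (i + 1) = sig i s (i + 1) := by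
    rw [sig_one, sig_one, sig_ne _ (by omega)]
  have I2 : sig i (sig j s) (i + 2) = sig i s (i + 2) := by
    rw [sig_two, sig_two, sig_ne _ (by omega)]
  have J0 : sig j (sig i s) j = sig j s j := by
    rw [sig_zero, sig_zero, sig_ne _ (by omega), sig_ne _ (by omega), sig_ne _ (by omega)]
  have J1 : sig j (sig i s) (j + 1) = sig j s (j + 1) := by
    rw [sig_one, sig_one, sig_ne _ (by omega)]
  have J2 : sig j (sig i s) (j + 2) = sig j s (j + 2) := by
    rw [sig_two, sig_two, sig_ne _ (by omega)]
  funext k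
  by_cases h0 : k = i
  · subst h0
    rw [I0, sig_ne _ (by omega)]
  · by_cases h1 : k = i + 1
    · subst h1
      rw [I1, sig_ne _ (by omega)]
    · by_cases h2 : k = i + 2
      · subst h2
        rw [I2, sig_ne _ (by omega)]
      · by_cases h3 : k = j
        · subst h3
          rw [J0]
          exact (sig_ne _ (by omega)).symm
        · by_cases h4 : k = j + 1
          · subst h4
            rw [J1]
            exact (sig_ne _ (by omega)).symm
          · by_cases h5 : k = j + 2
            · subst h5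
              rw [J2]
              exact (sig_ne _ (by omega)).symm
            · rw [sig_ne _ (by omega), sig_ne _ (by omega), sig_ne _ (by omega),
                sig_ne _ (by omega)]

theorem act_rels : ∀ r ∈ rels,
    FreeGroup.lift (fun n => MulOpposite.op (sigE n)) r = 1 := by
  rintro r (⟨n, rfl⟩ | ⟨i, j, hij, rfl⟩)
  · rw [map_mul, map_inv, mul_inv_eq_one]
    simp only [map_mul, FreeGroup.lift_apply_of]
    apply MulOpposite.unop_injective
    ext1 s
    exact sig_rel n s
  · rw [map_mul, map_inv, mul_inv_eq_one]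
    simp only [map_mul, FreeGroup.lift_apply_of]
    apply MulOpposite.unop_injective
    ext1 s
    exact sig_comm i j hij s

/-- the right action of `G` on sequences, as a homomorphism to the opposite of the permutation
group -/
def actHom : G →* (Equiv.Perm (ℕ → X))ᵐᵒᵖ := PresentedGroup.toGroup act_rels

/-- the right action of `G` on sequences -/
def act (s : ℕ → X) (g : G) : ℕ → X := (MulOpposite.unop (actHom g)) s

@[simp] theorem act_one (s : ℕ → X) : act s 1 = s := by simp [act]

@[simp] theorem act_mul (s : ℕ → X) (g h : G) : act s (g * h) = act (act s g) h := by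
  simp [act]

@[simp] theorem act_tau (s : ℕ → X) (n : ℕ) : act s (tau n) = sig n s := by
  simp [act, actHom, tau, sigE]

theorem act_inv_act (s : ℕ → X) (g : G) : act (act s g⁻¹) g = s := by
  rw [← act_mul]; simp

theorem act_act_inv (s : ℕ → X) (g : G) : act (act s g) g⁻¹ = s := by
  rw [← act_mul]; simp

/-- tail of a sequence -/
def tl (s : ℕ → X) : ℕ → X := fun i => s (i + 1)

/-- the generic sequence -/
def gen : ℕ → X := fun i => (1, i)

end HB
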