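import Pool.Agent.Helper94.HB.Defs

/-!
Labelled terms over a pointed self-distributive ternary algebra, expansions, confluence.
-/

namespace HB

/-- Pointed self-distributive ternary algebras. -/
class PE (A : Type*) where
  t : A → A → A → A
  pt : A
  ld : ∀ a b x y z, t a b (t x y z) = t (t a b x) (t a b y) (t a b z)

open PE

/-- Labelled binary trees: inner nodes carry a label in `A`. -/
inductive Tm (A : Type*)
  | leaf : Tm A
  | node (a : Tm A) (b : A) (c : Tm A) : Tm A

namespace Tm

variable {A : Type*} [PE A]

/-- value of a labelled term -/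
def ev : Tm A → A
  | leaf => pt
  | node a b c => t a.ev b c.ev

@[simp] theorem ev_leaf : (leaf : Tm A).ev = pt := rfl
@[simp] theorem ev_node (a : Tm A) (b : A) (c : Tm A) : (node a b c).ev = t a.ev b c.ev := rfl

/-- one expansion step -/
inductive Step : Tm A → Tm A → Prop
  | root (a : Tm A) (b : A) (x : Tm A) (y : A) (z : Tm A) :
      Step (node a b (node x y z)) (node (node a b x) (t a.ev b y) (node a b z))
  | left {a a' : Tm A} (b : A) (c : Tm A) : Step a a' → Step (node a b c) (node a' b c)
  | right (a : Tm A) (b : A) {c c' : Tm A} : Step c c' → Step (node a b c) (node a b c')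

/-- expansions -/
abbrev Steps : Tm A → Tm A → Prop := Relation.ReflTransGen Step

theorem Step.ev_eq {s u : Tm A} (h : Step s u) : s.ev = u.ev := by
  induction h with
  | root a b x y z => exact ld _ _ _ _ _
  | left b c _ ih => simp [ih]
  | right a b _ ih => simp [ih]

theorem Steps.ev_eq {s u : Tm A} (h : Steps s u) : s.ev = u.ev := by
  induction h with
  | refl => rfl
  | tail _ h ih => rw [ih, h.ev_eq]

theorem Steps.left {a a' : Tm A} (b : A) (c : Tm A) (h : Steps a a') :
    Steps (node a b c) (node a' b c) := by
  induction h with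
  | refl => exact .refl
  | tail _ h ih => exact ih.tail (Step.left b c h)

theorem Steps.right (a : Tm A) (b : A) {c c' : Tm A} (h : Steps c c') :
    Steps (node a b c) (node a b c') := by
  induction h with
  | refl => exact .refl
  | tail _ h ih => exact ih.tail (Step.right a b h)

theorem Steps.both {a a' : Tm A} (b : A) {c c' : Tm A} (h : Steps a a') (h' : Steps c c') :
    Steps (node a b c) (node a' b c') :=
  (h.left b c).trans (h'.right a' b)

/-- distribute `(a,b)` over a term -/
def dist (a : Tm A) (b : A) : Tm A → Tm A
  | leaf => node a b leaf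
  | node x y z => node (dist a b x) (t a.ev b y) (dist a b z)

@[simp] theorem dist_leaf (a : Tm A) (b : A) : dist a b leaf = node a b leaf := rfl
@[simp] theorem dist_node (a : Tm A) (b : A) (x : Tm A) (y : A) (z : Tm A) :
    dist a b (node x y z) = node (dist a b x) (t a.ev b y) (dist a b z) := rfl

@[simp] theorem ev_dist (a : Tm A) (b : A) (c : Tm A) : (dist a b c).ev = t a.ev b c.ev := by
  induction c with
  | leaf => rfl
  | node x y z ihx ihz =>
    simp only [dist_node, ev_node, ihx, ihz]
    exact (ld _ _ _ _ _).symm

/-- the full expansion -/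
def del : Tm A → Tm A
  | leaf => leaf
  | node a b c => dist (del a) b (del c)

@[simp] theorem ev_del (a : Tm A) : (del a).ev = a.ev := by
  induction a with
  | leaf => rfl
  | node a b c iha ihc => simp [del, iha, ihc]

theorem steps_dist (a : Tm A) (b : A) (c : Tm A) : Steps (node a b c) (dist a b c) := by
  induction c with
  | leaf => exact .refl
  | node x y z ihx ihz =>
    exact (Relation.ReflTransGen.single (Step.root a b x y z)).trans (Steps.both _ ihx ihz)

theorem dist_left {a a' : Tm A} (b : A) (c : Tm A) (h : Steps a a') :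
    Steps (dist a b c) (dist a' b c) := by
  induction c with
  | leaf => exact h.left _ _
  | node x y z ihx ihz =>
    simp only [dist_node]
    rw [h.ev_eq]
    exact Steps.both _ ihx ihz

theorem dist_step (a : Tm A) (b : A) {c c' : Tm A} (h : Step c c') :
    Step (dist a b c) (dist a b c') := by
  induction h with
  | root x y x' y' z' =>
    simp only [dist_node]
    have := Step.root (dist a b x) (t a.ev b y) (dist a b x') (t a.ev b y') (dist a b z')
    rw [ev_dist, ← ld] at this
    exact this
  | left y z _ ih => exact Step.left _ _ ih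
  | right x y _ ih => exact Step.right _ _ ih

theorem dist_right (a : Tm A) (b : A) {c c' : Tm A} (h : Steps c c') :
    Steps (dist a b c) (dist a b c') := by
  induction h with
  | refl => exact .refl
  | tail _ h ih => exact ih.tail (dist_step a b h)

theorem dist_both {a a' : Tm A} (b : A) {c c' : Tm A} (h : Steps a a') (h' : Steps c c') :
    Steps (dist a b c) (dist a' b c') :=
  (dist_left b c h).trans (dist_right a' b h')

/-- lemma (v) -/
theorem steps_v (a : Tm A) (b : A) (x : Tm A) (y : A) (z : Tm A) :
    Steps (node (dist a b x) (t a.ev b y) (dist a b z)) (dist a b (dist x y z)) := by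
  induction z with
  | leaf => exact .refl
  | node z1 w z2 ih1 ih2 =>
    simp only [dist_node]
    have h := Step.root (dist a b x) (t a.ev b y) (dist a b z1) (t a.ev b w) (dist a b z2)
    rw [ev_dist, ← ld] at h
    exact (Relation.ReflTransGen.single h).trans (Steps.both _ ih1 ih2)

/-- lemma (vi) -/
theorem steps_vi (a : Tm A) (b : A) (x : Tm A) (y : A) (z : Tm A) :
    Steps (dist a b (dist x y z)) (dist (dist a b x) (t a.ev b y) (dist a b z)) := by
  induction z with
  | leaf =>
    simp only [dist_leaf, dist_node]
    exact steps_dist (dist a b x) (t a.ev b y) (node a b leaf)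
  | node z1 w z2 ih1 ih2 =>
    simp only [dist_node, ev_dist]
    rw [← ld]
    exact Steps.both _ ih1 ih2

theorem steps_del (a : Tm A) : Steps a (del a) := by
  induction a with
  | leaf => exact .refl
  | node a b c iha ihc =>
    exact (Steps.both b iha ihc).trans (steps_dist _ _ _)

theorem step_steps_del {a a' : Tm A} (h : Step a a') : Steps a' (del a) := by
  induction h with
  | root a b x y z =>
    have h1 : Steps (node (node a b x) (t a.ev b y) (node a b z))
        (node (dist (del a) b (del x)) (t (del a).ev b y) (dist (del a) b (del z))) := by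
      rw [ev_del]
      exact Steps.both _ ((Steps.both b (steps_del a) (steps_del x)).trans (steps_dist _ _ _))
        ((Steps.both b (steps_del a) (steps_del z)).trans (steps_dist _ _ _))
    exact h1.trans (steps_v (del a) b (del x) y (del z))
  | left b c h ih =>
    exact (Steps.both b ih (steps_del c)).trans (steps_dist _ _ _)
  | right a b h ih =>
    exact (Steps.both b (steps_del a) ih).trans (steps_dist _ _ _)

theorem del_step {a a' : Tm A} (h : Step a a') : Steps (del a) (del a') := by
  induction h with
  | root a b x y z =>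
    simp only [del]
    have := steps_vi (del a) b (del x) y (del z)
    rw [ev_del] at this
    exact this
  | left b c h ih => exact dist_left b _ ih
  | right a b h ih => exact dist_right _ b ih

theorem del_steps {a a' : Tm A} (h : Steps a a') : Steps (del a) (del a') := by
  induction h with
  | refl => exact .refl
  | tail _ h ih => exact ih.trans (del_step h)

theorem steps_iter_del (n : ℕ) (a : Tm A) : Steps a (del^[n] a) := by
  induction n with
  | zero => exact .refl
  | succ n ih =>
    rw [Function.iterate_succ_apply']
    exact ih.trans (steps_del _)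

theorem del_iter_steps (n : ℕ) {a a' : Tm A} (h : Steps a a') :
    Steps (del^[n] a) (del^[n] a') := by
  induction n with
  | zero => exact h
  | succ n ih =>
    rw [Function.iterate_succ_apply', Function.iterate_succ_apply']
    exact del_steps ih

theorem steps_le_iter {a : Tm A} {a' : Tm A} (h : Steps a a') :
    ∃ n, Steps a' (del^[n] a) := by
  induction h with
  | refl => exact ⟨0, .refl⟩
  | tail _ h ih =>
    obtain ⟨n, hn⟩ := ih
    refine ⟨n + 1, (step_steps_del h).trans ?_⟩
    rw [Function.iterate_succ_apply']
    exact del_steps hn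

theorem confluent {a b c : Tm A} (h1 : Steps a b) (h2 : Steps a c) :
    ∃ d, Steps b d ∧ Steps c d := by
  obtain ⟨n, hn⟩ := steps_le_iter h1
  obtain ⟨m, hm⟩ := steps_le_iter h2
  refine ⟨del^[m + n] a, ?_, ?_⟩
  · rw [Function.iterate_add_apply]
    exact hn.trans (steps_iter_del m _)
  · rw [add_comm, Function.iterate_add_apply]
    exact hm.trans (steps_iter_del n _)

/-- joinability -/
def Joins (a b : Tm A) : Prop := ∃ d, Steps a d ∧ Steps b d

theorem Joins.refl (a : Tm A) : Joins a a := ⟨a, .refl, .refl⟩

theorem Joins.symm {a b : Tm A} (h : Joins a b) : Joins b a := by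
  obtain ⟨d, h1, h2⟩ := h
  exact ⟨d, h2, h1⟩

theorem Joins.trans {a b c : Tm A} (h : Joins a b) (h' : Joins b c) : Joins a c := by
  obtain ⟨d, h1, h2⟩ := h
  obtain ⟨e, h3, h4⟩ := h'
  obtain ⟨f, h5, h6⟩ := confluent h2 h3
  exact ⟨f, h1.trans h5, h4.trans h6⟩

theorem Joins.of_steps {a b : Tm A} (h : Steps a b) : Joins a b := ⟨b, h, .refl⟩

theorem Joins.both {a a' : Tm A} (b : A) {c c' : Tm A} (h : Joins a a') (h' : Joins c c') :
    Joins (node a b c) (node a' b c') := by
  obtain ⟨d, h1, h2⟩ := h
  obtain ⟨e, h3, h4⟩ := h'
  exact ⟨node d b e, Steps.both b h1 h3, Steps.both b h2 h4⟩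

theorem Joins.ev_eq {a b : Tm A} (h : Joins a b) : a.ev = b.ev := by
  obtain ⟨d, h1, h2⟩ := h
  rw [h1.ev_eq, h2.ev_eq]

/-! ### left spine -/

/-- `LS a s`: `a` is a left-spine subterm of `s` -/
inductive LS : Tm A → Tm A → Prop
  | refl (s : Tm A) : LS s s
  | step {a s : Tm A} (b : A) (c : Tm A) : LS a s → LS a (node s b c)

omit [PE A] in
theorem LS.trans {a b c : Tm A} (h : LS a b) (h' : LS b c) : LS a c := by
  induction h' with
  | refl => exact h
  | step y z _ ih => exact LS.step y z ih

omit [PE A] in
theorem LS.total {a b s : Tm A} (h : LS a s) (h' : LS b s) : LS a b ∨ LS b a := by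
  induction h with
  | refl => exact Or.inr h'
  | @step s y z h1 ih =>
    cases h' with
    | refl => exact Or.inl (LS.step y z h1)
    | step _ _ h2 => exact ih h2

theorem LS.step_persist {a s s' : Tm A} (h : LS a s) (h' : Step s s') :
    ∃ a', Relation.ReflGen Step a a' ∧ LS a' s' := by
  induction h generalizing s' with
  | refl => exact ⟨s', Relation.ReflGen.single h', LS.refl _⟩
  | @step s y z h1 ih =>
    cases h' with
    | root _ _ x' y' z' => exact ⟨a, .refl, LS.step _ _ (LS.step _ _ h1)⟩
    | left _ _ h2 =>
      obtain ⟨a', h3, h4⟩ := ih h2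
      exact ⟨a', h3, LS.step _ _ h4⟩
    | right _ _ h2 => exact ⟨a, .refl, LS.step _ _ h1⟩

theorem LS.persist {a s s' : Tm A} (h : LS a s) (h' : Steps s s') :
    ∃ a', Steps a a' ∧ LS a' s' := by
  induction h' with
  | refl => exact ⟨a, .refl, h⟩
  | tail _ h2 ih =>
    obtain ⟨a', h3, h4⟩ := ih
    obtain ⟨a'', h5, h6⟩ := h4.step_persist h2
    refine ⟨a'', ?_, h6⟩
    cases h5 with
    | refl => exact h3
    | single h7 => exact h3.tail h7

/-- persistence of left-spine edges -/
theorem LS.edge_step {a c s s' : Tm A} {b : A} (h : LS (node a b c) s) (h' : Step s s') :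
    ∃ a' c', a'.ev = a.ev ∧ LS (node a' b c') s' := by
  generalize hn : node a b c = n at h
  induction h generalizing s' with
  | refl =>
    subst hn
    cases h' with
    | root _ _ x y z => exact ⟨a, x, rfl, LS.step _ _ (LS.refl _)⟩
    | left _ _ h2 => exact ⟨_, c, h2.ev_eq.symm, LS.refl _⟩
    | right _ _ h2 => exact ⟨a, _, rfl, LS.refl _⟩
  | @step s y z h1 ih =>
    cases h' with
    | root _ _ x' y' z' =>
      subst hn
      exact ⟨a, c, rfl, LS.step _ _ (LS.step _ _ h1)⟩
    | left _ _ h2 =>
      obtain ⟨a', c', h3, h4⟩ := ih h2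
      exact ⟨a', c', h3, LS.step _ _ h4⟩
    | right _ _ h2 =>
      subst hn
      exact ⟨a, c, rfl, LS.step _ _ h1⟩

theorem LS.edge {a c s s' : Tm A} {b : A} (h : LS (node a b c) s) (h' : Steps s s') :
    ∃ a' c', a'.ev = a.ev ∧ LS (node a' b c') s' := by
  induction h' with
  | refl => exact ⟨a, c, rfl, h⟩
  | tail _ h2 ih =>
    obtain ⟨a', c', h3, h4⟩ := ih
    obtain ⟨a'', c'', h5, h6⟩ := h4.edge_step h2
    exact ⟨a'', c'', h5.trans h3, h6⟩

end Tm

end HB
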