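import Pool.Agent.Helper94.HB.RackDefs

/-!
Endomorphisms of the rack `X` (definitions only).
-/

namespace HB

open Classical in
/-- decoding of letters -/
noncomputable def dec (n : ℕ) : Option (ℕ × X) :=
  if h : ∃ p : ℕ × X, enc p.1 p.2 = n then some h.choose else none

theorem dec_enc (i : ℕ) (y : X) : dec (enc i y) = some (i, y) := by
  have h : ∃ p : ℕ × X, enc p.1 p.2 = enc i y := ⟨(i, y), rfl⟩
  unfold dec
  rw [dif_pos h]
  have := enc_inj h.choose_spec
  rw [Option.some_inj]
  exact Prod.ext this.1 this.2

theorem dec_none {n : ℕ} (hn : ∀ i y, enc i y ≠ n) : dec n = none := by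
  unfold dec
  rw [dif_neg]
  rintro ⟨p, hp⟩
  exact hn _ _ hp

/-- approximations to the values of the endomorphism on letters -/
noncomputable def thApp (f : ℕ → X) : ℕ → ℕ → Gam
  | 0, n => FreeGroup.of n
  | k + 1, n =>
    match dec n with
    | none => FreeGroup.of n
    | some (i, y) => lam (f i) (mulX (FreeGroup.lift (thApp f k) y.1) (f y.2))

/-- the endomorphism of `Gam` given by `f` -/
noncomputable def theta (f : ℕ → X) : Gam →* Gam := FreeGroup.lift (fun n => thApp f (n + 1) n)

/-- the endomorphism of `X` given by `f` -/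
noncomputable def thX (f : ℕ → X) (y : X) : X := mulX (theta f y.1) (f y.2)

/-- the endomorphism of `X` given by an element of `G` -/
noncomputable def Th (g : G) : X → X := thX (act gen g)

/-- `PosW v0 w`: `w = sh v0 * tau 0 * sh v1 * tau 0 * ... * tau 0 * sh vk`, `k ≥ 1`. -/
inductive PosW : G → G → Prop
  | base (v0 v1 : G) : PosW v0 (sh v0 * tau 0 * sh v1)
  | step {v0 w : G} (v : G) : PosW v0 w → PosW v0 (w * tau 0 * sh v)

end HB
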